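import Pool.Agent.QDec.Def

/-!
# Lattice points in a perturbed triangle in relaxed normal form

PROOF (all quantities integers; `c = -γ i ≥ 1`, `h = |β j| ≥ 1`, `j ≠ i` by `ori`, `E = |t| + |m|`).
`∑_k Q fm_k = Q p x`, `p = ∑ α ≤ 4h`, and `Q fm_k ≥ -E` for all `k` (since `|eb|, |eg| ≤ 1`), so
`Q fm_k ≤ Q p x + 2E ≤ 4 Q h x + 2 E`. With `ψ_k = β k t + γ k m = fm_k - α k x`, `|α k| ≤ 6h`:
`|Q ψ_k| ≤ 10 Q h x + 2E` for `k = i, j`. `D = β i γ j - β j γ i`: `γ j ≤ c` (both other `γ` are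
`≥ 0` with sum `c`), `|β i| ≤ 0.6 c`, `c ≤ 1.1 h`, so `|D| ≥ h c - 0.6 c^2 ≥ 0.34 h c`.
`t D = γ j ψ_i - γ i ψ_j` gives `|t| 0.34 h Q ≤ 20 Q h x + 4 E`;
`m D = β i ψ_j - β j ψ_i`, `|β i| + h ≤ 1.66 h`, gives `|m| 0.34 Q c ≤ 16.6 Q h x + 3.32 E`.
Adding (`h, c ≥ 1`): `0.34 Q E ≤ 36.6 Q h x + 7.32 E`, with `Q ≥ 3000`: `E ≤ 109 h x`. Then
`|t| 0.34 h Q ≤ 20 Q h x + 436 h x`, so `|t| ≤ 60 x`.
TOP POINT: `A = Q α_i x + (Q β_i + eb_i) t`, `c' = Q c` (as `eg i = 0`); `m' = A / c'` (floor).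
`|A| ≤ 0.6 Q c x + (0.6 Q c + 1) 60 x ≤ 37 c' x`, so `|m'| ≤ 37 x ≤ 40 x`. Form `i` at `m'` is
`A - c' m' ≥ 0`. `m ≤ m'` because `A - c' m ≥ 0`; the other forms have coefficient
`Q γ k + eg k ≥ 0` of `m`, so they stay `≥ 0`.
-/

namespace Pool.Agent.QDec

open Pool.Hhelper28.Quot

theorem box_num {h c Q x a b B : ℤ} (hh : 1 ≤ h) (hc : 1 ≤ c) (hQ : 3000 ≤ Q) (hx : 0 < x)
    (ha : 0 ≤ a) (hb : 0 ≤ b) (hB : B = 10 * Q * h * x + 2 * (a + b))
    (h1 : 17 * (h * (Q * a)) ≤ 100 * B) (h2 : 17 * (c * (Q * b)) ≤ 83 * B) : a ≤ 60 * x := by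
  have hQ0 : 0 < Q := by linarith
  have hQa : 0 ≤ Q * a := mul_nonneg hQ0.le ha
  have hQb : 0 ≤ Q * b := mul_nonneg hQ0.le hb
  have h3 : Q * a ≤ h * (Q * a) := by nlinarith
  have h4 : Q * b ≤ c * (Q * b) := by nlinarith
  have hhx : 0 < h * x := mul_pos (by linarith) hx
  have h5 : (17 * Q - 366) * (a + b) ≤ 1830 * Q * (h * x) := by nlinarith
  have h6 : 1830 * Q * (h * x) ≤ (17 * Q - 366) * (109 * (h * x)) := by nlinarith
  have h7 : a + b ≤ 109 * (h * x) :=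
    le_of_mul_le_mul_left (h5.trans h6) (by linarith)
  have h8 : h * (17 * (Q * a)) ≤ h * ((1000 * Q + 21800) * x) := by nlinarith
  have h9 : 17 * (Q * a) ≤ (1000 * Q + 21800) * x := le_of_mul_le_mul_left h8 (by linarith)
  have h10 : (1000 * Q + 21800) * x ≤ 1020 * Q * x := by nlinarith
  have h11 : Q * (17 * a) ≤ Q * (1020 * x) := by nlinarith
  have h12 : 17 * a ≤ 1020 * x := le_of_mul_le_mul_left h11 hQ0
  linarith

theorem box_det {βi βj γi γj c h : ℤ} (hc : c = -γi) (hh : h = |βj|) (hc1 : 1 ≤ c)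
    (hγj0 : 0 ≤ γj) (hγj : γj ≤ c) (hb : 10 * |βi| ≤ 6 * c) (hch : 10 * c ≤ 11 * h) :
    34 * (h * c) ≤ 100 * |βi * γj - βj * γi| := by
  have h1 : |βj * γi| - |βi * γj| ≤ |βi * γj - βj * γi| := by
    have := abs_sub_abs_le_abs_sub (βj * γi) (βi * γj)
    rw [abs_sub_comm] at this
    exact this
  have h2 : |βj * γi| = h * c := by
    rw [abs_mul, ← hh, hc, abs_of_nonpos (by linarith)]
  have h3 : |βi * γj| ≤ |βi| * c := by
    rw [abs_mul, abs_of_nonneg hγj0]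
    exact mul_le_mul_of_nonneg_left hγj (abs_nonneg _)
  have h4 : 100 * (|βi| * c) ≤ 60 * (c * c) := by nlinarith
  have h5 : 60 * (c * c) ≤ 66 * (h * c) := by nlinarith
  linarith

theorem box_t {αi αj βi βj γi γj c h Q x t m fi fj : ℤ} (hc : c = -γi) (hh : h = |βj|)
    (hc1 : 1 ≤ c) (hγj0 : 0 ≤ γj) (hγj : γj ≤ c) (hb : 10 * |βi| ≤ 6 * c)
    (hch : 10 * c ≤ 11 * h) (hQ : 3000 ≤ Q) (hx : 0 < x)
    (hai : |αi| ≤ 6 * h) (haj : |αj| ≤ 6 * h)
    (hfi : fi = αi * x + βi * t + γi * m) (hfj : fj = αj * x + βj * t + γj * m)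
    (hi1 : -(|t| + |m|) ≤ Q * fi) (hi2 : Q * fi ≤ 4 * Q * h * x + 2 * (|t| + |m|))
    (hj1 : -(|t| + |m|) ≤ Q * fj) (hj2 : Q * fj ≤ 4 * Q * h * x + 2 * (|t| + |m|)) :
    |t| ≤ 60 * x := by
  have hQ0 : 0 < Q := by linarith
  have hh1 : 1 ≤ h := by omega
  have ht0 := abs_nonneg t
  have hm0 := abs_nonneg m
  have hQhx : 0 < Q * (h * x) := mul_pos hQ0 (mul_pos (by linarith) hx)
  have key : ∀ al f : ℤ, |al| ≤ 6 * h → -(|t| + |m|) ≤ Q * f →
      Q * f ≤ 4 * Q * h * x + 2 * (|t| + |m|) →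
      |Q * (f - al * x)| ≤ 10 * Q * h * x + 2 * (|t| + |m|) := by
    intro al f h1 h2 h3
    have h4 : |al * x| ≤ 6 * h * x := by
      rw [abs_mul, abs_of_pos hx]
      exact mul_le_mul_of_nonneg_right h1 hx.le
    obtain ⟨h5, h6⟩ := abs_le.mp h4
    have h7 : Q * (al * x) ≤ Q * (6 * h * x) := mul_le_mul_of_nonneg_left h6 hQ0.le
    have h8 : Q * (-(6 * h * x)) ≤ Q * (al * x) := mul_le_mul_of_nonneg_left h5 hQ0.le
    rw [abs_le]
    constructor
    · nlinarith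
    · nlinarith
  have hPi := key αi fi hai hi1 hi2
  have hPj := key αj fj haj hj1 hj2
  set B : ℤ := 10 * Q * h * x + 2 * (|t| + |m|) with hB
  have hB0 : 0 ≤ B := (abs_nonneg _).trans hPi
  have hD := box_det hc hh hc1 hγj0 hγj hb hch
  set D : ℤ := βi * γj - βj * γi with hDdef
  have e1 : Q * (t * D) = γj * (Q * (fi - αi * x)) + c * (Q * (fj - αj * x)) := by
    rw [hfi, hfj, hc, hDdef]; ring
  have e2 : Q * (m * D) = βi * (Q * (fj - αj * x)) - βj * (Q * (fi - αi * x)) := by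
    rw [hfi, hfj, hDdef]; ring
  have h1 : Q * (|t| * |D|) ≤ 2 * (c * B) := by
    have : Q * (|t| * |D|) = |Q * (t * D)| := by
      rw [abs_mul, abs_mul, abs_of_pos hQ0]
    rw [this, e1]
    refine (abs_add_le _ _).trans ?_
    rw [abs_mul γj, abs_mul c, abs_of_nonneg hγj0, abs_of_nonneg (by linarith : 0 ≤ c)]
    have h2 : γj * |Q * (fi - αi * x)| ≤ c * B :=
      mul_le_mul hγj hPi (abs_nonneg _) (by linarith)
    have h3 : c * |Q * (fj - αj * x)| ≤ c * B :=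
      mul_le_mul_of_nonneg_left hPj (by linarith)
    linarith
  have h2 : 100 * (Q * (|m| * |D|)) ≤ 166 * (h * B) := by
    have : Q * (|m| * |D|) = |Q * (m * D)| := by
      rw [abs_mul, abs_mul, abs_of_pos hQ0]
    rw [this, e2]
    have h3 : |βi * (Q * (fj - αj * x)) - βj * (Q * (fi - αi * x))|
        ≤ |βi| * B + h * B := by
      refine (abs_sub _ _).trans ?_
      rw [abs_mul βi, abs_mul βj, ← hh]
      exact add_le_add (mul_le_mul_of_nonneg_left hPj (abs_nonneg _))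
        (mul_le_mul_of_nonneg_left hPi (by linarith))
    have h4 : 100 * |βi| ≤ 66 * h := by linarith
    have h5 : 100 * |βi| * B ≤ 66 * h * B := mul_le_mul_of_nonneg_right h4 hB0
    linarith
  -- combine
  have h3 : c * (17 * (h * (Q * |t|))) ≤ c * (100 * B) := by
    have : 34 * (h * c) * (Q * |t|) ≤ 100 * |D| * (Q * |t|) :=
      mul_le_mul_of_nonneg_right hD (mul_nonneg hQ0.le ht0)
    nlinarith
  have h4 : 17 * (h * (Q * |t|)) ≤ 100 * B := le_of_mul_le_mul_left h3 (by linarith)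
  have h5 : h * (34 * (c * (Q * |m|))) ≤ h * (166 * B) := by
    have : 34 * (h * c) * (Q * |m|) ≤ 100 * |D| * (Q * |m|) :=
      mul_le_mul_of_nonneg_right hD (mul_nonneg hQ0.le hm0)
    nlinarith
  have h6 : 34 * (c * (Q * |m|)) ≤ 166 * B := le_of_mul_le_mul_left h5 (by linarith)
  exact box_num hh1 hc1 hQ hx ht0 hm0 hB h4 (by linarith)

theorem box_sum (f : Fin 3 → ℤ) {i j l : Fin 3} (hij : j ≠ i) (hil : l ≠ i) (hjl : l ≠ j) :
    ∑ k, f k = f i + f j + f l := by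
  rw [Fin.sum_univ_three]
  fin_cases i <;> fin_cases j <;> fin_cases l <;> simp_all <;> ring

theorem box {α β γ : Fin 3 → ℤ} {i j : Fin 3} (h : RNF α β γ i j) (eb eg : Fin 3 → ℤ)
    (heb : ∀ k, |eb k| ≤ 1) (heg : ∀ k, |eg k| ≤ 1) (hi : eg i = 0) (hk : ∀ k, 0 ≤ eg k)
    {Q : ℤ} (hQ : 3000 ≤ Q) {x t m : ℤ} (hx : 0 < x)
    (hf : ∀ k, 0 ≤ Q * fm α β γ k x t m + (eb k * t + eg k * m)) :
    |t| ≤ 60 * x ∧ ∃ m', |m'| ≤ 40 * x ∧
      ∀ k, 0 ≤ Q * fm α β γ k x t m' + (eb k * t + eg k * m') := by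
  have hQ0 : 0 < Q := by linarith
  obtain ⟨l, hij, hil, hjl⟩ : ∃ l : Fin 3, j ≠ i ∧ l ≠ i ∧ l ≠ j := by
    have hd : ∀ a : Fin 3, (a + 1 ≠ a ∧ a + 2 ≠ a ∧ a + 2 ≠ a + 1) ∧
        (a + 2 ≠ a ∧ a + 1 ≠ a ∧ a + 1 ≠ a + 2) := by decide
    rcases h.ori with ⟨h1, -⟩ | ⟨h1, -⟩
    · refine ⟨i + 2, ?_⟩
      rw [h1]
      exact (hd i).1
    · refine ⟨i + 1, ?_⟩
      rw [h1]
      exact (hd i).2
  have sα := box_sum α hij hil hjl
  have sβ := box_sum β hij hil hjl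
  have sγ := box_sum γ hij hil hjl
  rw [h.sb] at sβ
  rw [h.sg] at sγ
  have hneg := h.neg
  have hγj := h.nonneg j hij
  have hγl := h.nonneg l hil
  have hlow : ∀ k, -(|t| + |m|) ≤ Q * fm α β γ k x t m := by
    intro k
    have h1 := hf k
    have h2 : |eb k * t| ≤ |t| := by
      rw [abs_mul]
      exact mul_le_of_le_one_left (abs_nonneg _) (heb k)
    have h3 : |eg k * m| ≤ |m| := by
      rw [abs_mul]
      exact mul_le_of_le_one_left (abs_nonneg _) (heg k)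
    have h4 := (abs_le.mp h2).2
    have h5 := (abs_le.mp h3).2
    linarith
  have hsum : fm α β γ i x t m + fm α β γ j x t m + fm α β γ l x t m = (∑ k, α k) * x := by
    rw [sα]
    simp only [fm]
    linear_combination (-t) * sβ + (-m) * sγ
  have hup : (∑ k, α k) * x ≤ 4 * |β j| * x := mul_le_mul_of_nonneg_right h.hp hx.le
  have hup2 : Q * ((∑ k, α k) * x) ≤ Q * (4 * |β j| * x) := mul_le_mul_of_nonneg_left hup hQ0.le
  have hQsum : Q * fm α β γ i x t m + Q * fm α β γ j x t m + Q * fm α β γ l x t m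
      = Q * ((∑ k, α k) * x) := by
    rw [← hsum]; ring
  have htx : |t| ≤ 60 * x := by
    refine box_t (αi := α i) (αj := α j) (βi := β i) (βj := β j) (γi := γ i) (γj := γ j)
      (c := -γ i) (h := |β j|) (Q := Q) (x := x) (t := t) (m := m)
      (fi := fm α β γ i x t m) (fj := fm α β γ j x t m) rfl rfl (by linarith) hγj (by linarith)
      h.hb h.hc hQ hx (h.hal i) (h.hal j) rfl rfl (hlow i) ?_ (hlow j) ?_
    · have h1 := hlow j
      have h2 := hlow l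
      linarith
    · have h1 := hlow i
      have h2 := hlow l
      linarith
  refine ⟨htx, ?_⟩
  set A : ℤ := Q * (α i * x) + (Q * β i + eb i) * t with hA
  set c' : ℤ := Q * (-γ i) with hc'
  have hc'0 : 0 < c' := mul_pos hQ0 (by linarith)
  have hform : ∀ n : ℤ, Q * fm α β γ i x t n + (eb i * t + eg i * n) = A - c' * n := by
    intro n
    rw [hA, hc', hi]
    simp only [fm]
    ring
  have hAb : |A| ≤ 37 * (c' * x) := by
    have h1 : |Q * (α i * x)| ≤ Q * (|α i| * x) := by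
      rw [abs_mul, abs_mul, abs_of_pos hQ0, abs_of_pos hx]
    have h2 : |(Q * β i + eb i) * t| ≤ (Q * |β i| + 1) * (60 * x) := by
      rw [abs_mul]
      refine mul_le_mul ?_ htx (abs_nonneg _) (by positivity)
      refine (abs_add_le _ _).trans ?_
      rw [abs_mul, abs_of_pos hQ0]
      linarith [heb i]
    have h3 : 10 * (Q * (|α i| * x)) ≤ 6 * (c' * x) := by
      have h4 := mul_le_mul_of_nonneg_right (mul_le_mul_of_nonneg_left h.ha hQ0.le) hx.le
      rw [hc']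
      linarith
    have h4 : 10 * (Q * |β i| * (60 * x)) ≤ 360 * (c' * x) := by
      have h5 := mul_le_mul_of_nonneg_right (mul_le_mul_of_nonneg_left h.hb hQ0.le) hx.le
      rw [hc']
      linarith
    have h5 : 3000 * x ≤ c' * x := by
      have : 3000 ≤ c' := by rw [hc']; nlinarith
      exact mul_le_mul_of_nonneg_right this hx.le
    have h6 := abs_add_le (Q * (α i * x)) ((Q * β i + eb i) * t)
    rw [← hA] at h6
    nlinarith
  obtain ⟨hA1, hA2⟩ := abs_le.mp hAb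
  have hm : m ≤ A / c' := by
    rw [Int.le_ediv_iff_mul_le hc'0]
    have h1 := hf i
    rw [hform] at h1
    linarith
  refine ⟨A / c', ?_, ?_⟩
  · rw [abs_le]
    constructor
    · have : -(40 * x) * c' ≤ A := by nlinarith
      exact (Int.le_ediv_iff_mul_le hc'0).mpr this
    · have : A / c' ≤ 37 * x := by
        have h1 : A ≤ 37 * x * c' := by linarith
        exact Int.ediv_le_of_le_mul hc'0 h1
      linarith
  · intro k
    by_cases hki : k = i
    · rw [hki, hform]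
      have h1 := Int.ediv_mul_le A hc'0.ne'
      linarith
    · have h1 := hf k
      have h2 : 0 ≤ Q * γ k + eg k :=
        add_nonneg (mul_nonneg hQ0.le (h.nonneg k hki)) (hk k)
      have h3 : (Q * γ k + eg k) * m ≤ (Q * γ k + eg k) * (A / c') :=
        mul_le_mul_of_nonneg_left hm h2
      simp only [fm] at h1 ⊢
      nlinarith

end Pool.Agent.QDec
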