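import Pool.Agent.QDec.Cr

/-!
# Triangles with coprime minors are quotients

PROOF. `∑ cr b g k * b k = 0 = ∑ cr b g k * g k`, so `←... →`: if `(t, m)` is a witness, then
`u k = a k x + b k t + g k m ≥ 0` satisfy `∑ cr b g k * u k = p x`.
Conversely let `u k ≥ 0` with `∑ n k * u k = p x`, `n = cr b g`. Put `y k = u k - a k x`, so
`∑ n k * y k = 0`. With `∑ r k * n k = 1` take
`t = ∑ k, r k * cr y g k`, `m = ∑ k, r k * cr b y k`. Then `y k = b k * t + g k * m` for each `k`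
(identity modulo `∑ n y = 0` and `∑ r n = 1`: for `k = 0`,
`y 0 (∑ r n) - b 0 t - g 0 m = (∑ n y) * r 0`, similarly for the others; check by `ring` and use
`linear_combination`).
-/

namespace Pool.Agent.QDec

open Pool.Hhelper28.Quot

theorem conv (a b g : Fin 3 → ℤ) (r : Fin 3 → ℤ) (hr : ∑ k, r k * cr b g k = 1)
    {A B C p : ℕ} (hA : (A : ℤ) = cr b g 0) (hB : (B : ℤ) = cr b g 1) (hC : (C : ℤ) = cr b g 2)
    (hp : (p : ℤ) = ∑ k, cr b g k * a k) (x : ℕ) :
    Mem a b g x ↔ ∃ u v w : ℕ, p * x = A * u + B * v + C * w := by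
  rw [Fin.sum_univ_three, cr_zero, cr_one, cr_two] at hr hp
  rw [cr_zero] at hA
  rw [cr_one] at hB
  rw [cr_two] at hC
  constructor
  · rintro ⟨t, m, h⟩
    obtain ⟨u, hu⟩ := Int.eq_ofNat_of_zero_le (h 0)
    obtain ⟨v, hv⟩ := Int.eq_ofNat_of_zero_le (h 1)
    obtain ⟨w, hw⟩ := Int.eq_ofNat_of_zero_le (h 2)
    refine ⟨u, v, w, ?_⟩
    have : (p : ℤ) * x = A * u + B * v + C * w := by
      rw [← hu, ← hv, ← hw, hA, hB, hC, hp]
      ring
    exact_mod_cast this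
  · rintro ⟨u, v, w, h⟩
    have hz : (p : ℤ) * x = A * u + B * v + C * w := by exact_mod_cast h
    rw [hA, hB, hC, hp] at hz
    set t : ℤ := r 0 * ((v - a 1 * x) * g 2 - (w - a 2 * x) * g 1) +
      r 1 * ((w - a 2 * x) * g 0 - (u - a 0 * x) * g 2) +
      r 2 * ((u - a 0 * x) * g 1 - (v - a 1 * x) * g 0) with ht
    set m : ℤ := r 0 * (b 1 * (w - a 2 * x) - b 2 * (v - a 1 * x)) +
      r 1 * (b 2 * (u - a 0 * x) - b 0 * (w - a 2 * x)) +
      r 2 * (b 0 * (v - a 1 * x) - b 1 * (u - a 0 * x)) with hm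
    have e0 : a 0 * x + b 0 * t + g 0 * m = u := by
      rw [ht, hm]
      linear_combination ((u : ℤ) - a 0 * x) * hr + r 0 * hz
    have e1 : a 1 * x + b 1 * t + g 1 * m = v := by
      rw [ht, hm]
      linear_combination ((v : ℤ) - a 1 * x) * hr + r 1 * hz
    have e2 : a 2 * x + b 2 * t + g 2 * m = w := by
      rw [ht, hm]
      linear_combination ((w : ℤ) - a 2 * x) * hr + r 2 * hz
    refine ⟨t, m, fun i => ?_⟩
    fin_cases i
    · show 0 ≤ a 0 * (x : ℤ) + b 0 * t + g 0 * m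
      rw [e0]
      exact Int.natCast_nonneg _
    · show 0 ≤ a 1 * (x : ℤ) + b 1 * t + g 1 * m
      rw [e1]
      exact Int.natCast_nonneg _
    · show 0 ≤ a 2 * (x : ℤ) + b 2 * t + g 2 * m
      rw [e2]
      exact Int.natCast_nonneg _

end Pool.Agent.QDec
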