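import Pool.Agent.QDec.Def

/-!
# Cross products of coefficient vectors
-/

namespace Pool.Agent.QDec

open Pool.Hhelper28.Quot

/-- The cross product of `b` and `g`: `cr b g 0 = b 1 g 2 - b 2 g 1` and cyclically. -/
def cr (b g : Fin 3 → ℤ) (k : Fin 3) : ℤ := b (k + 1) * g (k + 2) - b (k + 2) * g (k + 1)

/-- The perturbed vector. -/
def pv (Q : ℤ) (b e : Fin 3 → ℤ) : Fin 3 → ℤ := fun k => Q * b k + e k

lemma cr_zero (b g : Fin 3 → ℤ) : cr b g 0 = b 1 * g 2 - b 2 * g 1 := rfl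
lemma cr_one (b g : Fin 3 → ℤ) : cr b g 1 = b 2 * g 0 - b 0 * g 2 := rfl
lemma cr_two (b g : Fin 3 → ℤ) : cr b g 2 = b 0 * g 1 - b 1 * g 0 := rfl

end Pool.Agent.QDec
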