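import Pool.Agent.Hhelper28.Quot.Class

/-!
# Quotients of three generated numerical semigroups: normal forms of triangles

A triple of edge forms `φ_k(x, t, m) = α k x + β k t + γ k m`, `k = 0, 1, 2`, with
`∑ β = ∑ γ = 0`. `Mem α β γ x` (file Hhelper28/Quot/Reduce): some `(t, m)` has `φ_k(x,t,m) ≥ 0` for
all `k`.
-/

namespace Pool.Agent.QDec

open Pool.Hhelper28.Quot

/-- The value of the `k`-th edge form. -/
def fm (α β γ : Fin 3 → ℤ) (k : Fin 3) (x t m : ℤ) : ℤ := α k * x + β k * t + γ k * m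

/-- Strict normal form: `c = -γ i > 0` is the largest of the `|γ k|`, `h = |β j|` with `j ≠ i`,
`c ≤ h`, `|β i|, |α i| ≤ c / 2`, `∑ α ≤ 3 h`, `|α k| ≤ 5 h`; the last field fixes the orientation
(sign of `β j`). -/
structure SNF (α β γ : Fin 3 → ℤ) (i j : Fin 3) : Prop where
  sb : ∑ k, β k = 0
  sg : ∑ k, γ k = 0
  neg : γ i ≤ -1
  nonneg : ∀ k, k ≠ i → 0 ≤ γ k
  hb : 2 * |β i| ≤ -γ i
  ha : 2 * |α i| ≤ -γ i
  hc : -γ i ≤ |β j|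
  hp : ∑ k, α k ≤ 3 * |β j|
  hal : ∀ k, |α k| ≤ 5 * |β j|
  pos : 1 ≤ ∑ k, α k
  ori : (j = i + 1 ∧ 0 < β j) ∨ (j = i + 2 ∧ β j < 0)

/-- Relaxed normal form. -/
structure RNF (α β γ : Fin 3 → ℤ) (i j : Fin 3) : Prop where
  sb : ∑ k, β k = 0
  sg : ∑ k, γ k = 0
  neg : γ i ≤ -1
  nonneg : ∀ k, k ≠ i → 0 ≤ γ k
  hb : 10 * |β i| ≤ 6 * (-γ i)
  ha : 10 * |α i| ≤ 6 * (-γ i)
  hc : 10 * (-γ i) ≤ 11 * |β j|
  hp : ∑ k, α k ≤ 4 * |β j|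
  hal : ∀ k, |α k| ≤ 6 * |β j|
  pos : 1 ≤ ∑ k, α k
  ori : (j = i + 1 ∧ 0 < β j) ∨ (j = i + 2 ∧ β j < 0)

end Pool.Agent.QDec
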