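import Pool.Agent.QDec.Box
import Pool.Agent.QDec.Cr

/-!
# The perturbed triangle has the same lattice points up to height `N`

PROOF. Note `(Q α k) x + (Q β k + eb k) t + (Q γ k + eg k) m = Q fm_k(x,t,m) + (eb k t + eg k m)`.
`←`: `x ∈ S`, witness `(t, m)` of `hW`: the value is `≥ Q - |t| - |m| ≥ Q - 100 N ≥ 0`.
`→`: `Mem` gives `(t, m)`; `box` (with `3000 ≤ Q`) gives `|t| ≤ 60 x` and `m'` with `|m'| ≤ 40 x` and
all three values `≥ 0`. If `x ∉ S`, `hV` gives `k` with `fm_k(x,t,m') ≤ -1`, so the `k`-th value is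
`≤ -Q + |t| + |m'| ≤ -Q + 100 N < 0`, a contradiction.
-/

namespace Pool.Agent.QDec

open Pool.Hhelper28.Quot

theorem mem_iff {α β γ : Fin 3 → ℤ} {i j : Fin 3} (h : RNF α β γ i j) {N : ℤ} (hN : 1 ≤ N)
    (S : Set ℕ)
    (hW : ∀ x : ℕ, 1 ≤ x → (x : ℤ) ≤ N → x ∈ S → ∃ t m : ℤ, |t| ≤ 60 * x ∧ |m| ≤ 40 * x ∧
      ∀ k, 1 ≤ fm α β γ k x t m)
    (hV : ∀ x : ℕ, 1 ≤ x → (x : ℤ) ≤ N → x ∉ S → ∀ t m : ℤ, |t| ≤ 60 * x → |m| ≤ 40 * x →
      ∃ k, fm α β γ k x t m ≤ -1)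
    {Q : ℤ} {eb eg : Fin 3 → ℤ} (heb : ∀ k, |eb k| ≤ 1) (heg : ∀ k, |eg k| ≤ 1) (hi : eg i = 0)
    (hk : ∀ k, 0 ≤ eg k) (hQ : 3000 * N ≤ Q) (x : ℕ) (hx : 1 ≤ x) (hxN : (x : ℤ) ≤ N) :
    Mem (fun k => Q * α k) (pv Q β eb) (pv Q γ eg) x ↔ x ∈ S := by
  have hQ0 : 0 ≤ Q := by linarith
  have hxp : (0 : ℤ) < x := by exact_mod_cast hx
  have key : ∀ (k : Fin 3) (t m : ℤ), Q * α k * x + pv Q β eb k * t + pv Q γ eg k * m =
      Q * fm α β γ k x t m + (eb k * t + eg k * m) := by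
    intro k t m
    unfold pv fm
    ring
  have hsm : ∀ (k : Fin 3) (t m : ℤ), |t| ≤ 60 * x → |m| ≤ 40 * x →
      |eb k * t + eg k * m| ≤ 100 * N := by
    intro k t m ht hm
    have h1 : |eb k * t| ≤ |t| := by
      rw [abs_mul]
      have := mul_le_mul_of_nonneg_right (heb k) (abs_nonneg t)
      rwa [one_mul] at this
    have h2 : |eg k * m| ≤ |m| := by
      rw [abs_mul]
      have := mul_le_mul_of_nonneg_right (heg k) (abs_nonneg m)
      rwa [one_mul] at this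
    have h3 := abs_add_le (eb k * t) (eg k * m)
    linarith
  constructor
  · rintro ⟨t, m, htm⟩
    have hf : ∀ k, 0 ≤ Q * fm α β γ k x t m + (eb k * t + eg k * m) := by
      intro k
      rw [← key]
      exact htm k
    obtain ⟨ht, m', hm', hm2⟩ := box h eb eg heb heg hi hk (by linarith) hxp hf
    by_contra hS
    obtain ⟨k, hk1⟩ := hV x hx hxN hS t m' ht hm'
    have h1 := hm2 k
    have h2 := (abs_le.1 (hsm k t m' ht hm')).2
    have h3 : Q * fm α β γ k x t m' ≤ Q * (-1) := mul_le_mul_of_nonneg_left hk1 hQ0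
    linarith
  · intro hS
    obtain ⟨t, m, ht, hm, hf⟩ := hW x hx hxN hS
    refine ⟨t, m, fun k => ?_⟩
    show 0 ≤ Q * α k * x + pv Q β eb k * t + pv Q γ eg k * m
    rw [key]
    have h2 := (abs_le.1 (hsm k t m ht hm)).1
    have h3 : Q * 1 ≤ Q * fm α β γ k x t m := mul_le_mul_of_nonneg_left (hf k) hQ0
    linarith

end Pool.Agent.QDec
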