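import Pool.Agent.QDec.Cr

/-!
# Perturbation of a small triangle: coprime minors

PROOF. Put `Q = |β j| * (3000 * B * R ^ 2)`, let `l` be the third index (`j = i + 1` or `i + 2`),
`eb i = 1`, `eb l = -1`, `eb j = 0`, `eg j = 1`, `eg i = eg l = 0`. `1 ≤ |β j| ≤ R`, `3000 B R^2 ≤ Q`.
Write `b = pv Q β eb`, `g = pv Q γ eg`; `∑ b = 0`, `∑ g = 1`.
(a) `θ = cr β γ k` does not depend on `k` (as `∑ β = ∑ γ = 0`) and `θ ≥ 1`: if `j = i + 1` it is
`D = β i γ j - β j γ i` and `β j > 0`; if `j = i + 2` it is `-D` and `β j < 0`. With `c = -γ i ≥ 1`,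
`h = |β j|`, `0 ≤ γ j ≤ c`, `|β i| ≤ 0.6 c`, `c ≤ 1.1 h`: `h c - |β i| γ j ≥ 0.34 h c > 0`.
(b) `cr b g k = Q^2 θ + Q (cr β eg k + cr eb γ k) + cr eb eg k`, the error is at most `4 Q R + 2` in
absolute value, `≤ Q^2 / 100`; `1 ≤ θ ≤ 2 R^2`. Hence `0 < cr b g k`, `cr b g k < 2 cr b g l`,
`cr b g k ≤ 3 Q^2 R^2`.
(c) `cr b g k - cr b g (k+1) = - b (k+2)` (uses `∑ b = 0`, `∑ g = 1`), and all `b k ≠ 0`:
`Q β j ≠ 0`, `Q β i + 1 ≠ 0`, `Q β l - 1 ≠ 0` as `Q ≥ 2`. So the three values are distinct.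
(d) `b i = Q β i + 1` is coprime to `Q`, hence to `Q * Q`, hence to `b j = Q β j` (`β j ∣ Q`):
`u b i + w b j = 1`. With `λ i = u`, `λ j = w`, `λ l = 0`:
`1 = (∑ λ b)(∑ g) - (∑ λ g)(∑ b) = ∑_k (λ (k+1) - λ (k+2)) cr b g k`.
(e) `∑ cr b g k * (Q α k) = Q (Q^2 θ ∑ α + ∑ err_k α_k) ≥ Q (Q^2 - 3 R (4 Q R + 2)) > 0`.
-/

namespace Pool.Agent.QDec

open Pool.Hhelper28.Quot

private lemma pert_fin3 : ∀ i k : Fin 3, k = i ∨ k = i + 1 ∨ k = i + 2 := by decide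

private lemma pert_sum3 (f : Fin 3 → ℤ) (i : Fin 3) :
    ∑ k, f k = f i + f (i + 1) + f (i + 2) := by
  rw [Fin.sum_univ_three]
  fin_cases i
  · rfl
  · show f 0 + f 1 + f 2 = f 1 + f 2 + f 0
    ring
  · show f 0 + f 1 + f 2 = f 2 + f 0 + f 1
    ring

private lemma pert_a1 : ∀ i : Fin 3, i + 1 + 1 = i + 2 := by decide
private lemma pert_a2 : ∀ i : Fin 3, i + 1 + 2 = i := by decide
private lemma pert_a3 : ∀ i : Fin 3, i + 2 + 1 = i := by decide
private lemma pert_a4 : ∀ i : Fin 3, i + 2 + 2 = i + 1 := by decide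
private lemma pert_n1 : ∀ i : Fin 3, i + 1 ≠ i := by decide
private lemma pert_n2 : ∀ i : Fin 3, i + 2 ≠ i := by decide
private lemma pert_n3 : ∀ i : Fin 3, i + 1 ≠ i + 2 := by decide

private lemma pert_expand (Q : ℤ) (β γ eb eg : Fin 3 → ℤ) (k : Fin 3) :
    cr (pv Q β eb) (pv Q γ eg) k =
      Q ^ 2 * cr β γ k + (Q * (cr β eg k + cr eb γ k) + cr eb eg k) := by
  unfold cr pv; ring

private lemma pert_cr_le {b g : Fin 3 → ℤ} {R S : ℤ} (hb : ∀ k, |b k| ≤ R) (hg : ∀ k, |g k| ≤ S)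
    (k : Fin 3) : |cr b g k| ≤ 2 * (R * S) := by
  have hR : 0 ≤ R := le_trans (abs_nonneg _) (hb 0)
  have h : ∀ a c, |b a * g c| ≤ R * S := fun a c => by
    rw [abs_mul]; exact mul_le_mul (hb _) (hg _) (abs_nonneg _) hR
  unfold cr
  have h1 := abs_le.mp (h (k + 1) (k + 2))
  have h2 := abs_le.mp (h (k + 2) (k + 1))
  rw [abs_le]
  constructor <;> linarith [h1.1, h1.2, h2.1, h2.2]

private lemma pert_cr_const {β γ : Fin 3 → ℤ} (hβ : ∑ k, β k = 0) (hγ : ∑ k, γ k = 0)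
    (k : Fin 3) : cr β γ k = cr β γ 0 := by
  rw [Fin.sum_univ_three] at hβ hγ
  fin_cases k
  · rfl
  · show cr β γ 1 = cr β γ 0
    rw [cr_one, cr_zero]
    linear_combination β 2 * hγ - γ 2 * hβ
  · show cr β γ 2 = cr β γ 0
    rw [cr_two, cr_zero]
    linear_combination γ 1 * hβ - β 1 * hγ

private lemma pert_diff {b g : Fin 3 → ℤ} (hb : ∑ k, b k = 0) (hg : ∑ k, g k = 1)
    (k : Fin 3) : cr b g k - cr b g (k + 1) = - b (k + 2) := by
  rw [pert_sum3 _ k] at hb hg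
  unfold cr
  rw [pert_a1, pert_a2]
  linear_combination g (k + 2) * hb - b (k + 2) * hg

private lemma pert_pos {x w y c : ℤ} (hx : 10 * |x| ≤ 6 * c) (hw0 : 0 ≤ w) (hwc : w ≤ c)
    (hc : 1 ≤ c) (hcy : 10 * c ≤ 11 * y) : 1 ≤ x * w + y * c := by
  have h1 : |x * w| ≤ |x| * c := by
    rw [abs_mul, abs_of_nonneg hw0]
    exact mul_le_mul_of_nonneg_left hwc (abs_nonneg _)
  have h2 := (abs_le.mp h1).1
  have h3 : 10 * |x| * c ≤ 6 * c * c := mul_le_mul_of_nonneg_right hx (by linarith)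
  have h4 : 10 * c * c ≤ 11 * y * c := mul_le_mul_of_nonneg_right hcy (by linarith)
  have h5 : 1 ≤ c * c := by nlinarith
  nlinarith

/-- The estimates, for arbitrary small perturbations. -/
private lemma pert_est {α β γ eb eg : Fin 3 → ℤ} {R Q θ : ℤ} (hR1 : 1 ≤ R)
    (hα : ∀ k, |α k| ≤ R) (hβ : ∀ k, |β k| ≤ R) (hγ : ∀ k, |γ k| ≤ R)
    (heb : ∀ k, |eb k| ≤ 1) (heg : ∀ k, |eg k| ≤ 1) (hθ : ∀ k, cr β γ k = θ) (hθ1 : 1 ≤ θ)
    (hQ : 3000 * R ^ 2 ≤ Q) (hp : 1 ≤ ∑ k, α k) :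
    (∀ k, 0 < cr (pv Q β eb) (pv Q γ eg) k) ∧
      (∀ k l, cr (pv Q β eb) (pv Q γ eg) k < 2 * cr (pv Q β eb) (pv Q γ eg) l) ∧
      (∀ k, cr (pv Q β eb) (pv Q γ eg) k ≤ 3 * Q ^ 2 * R ^ 2) ∧
      0 < ∑ k, cr (pv Q β eb) (pv Q γ eg) k * (Q * α k) := by
  have hRR : R ≤ R ^ 2 := by nlinarith
  have hQR : 3000 * R ≤ Q := by linarith
  have hQ0 : 3000 ≤ Q := by linarith
  have hθ2 : θ ≤ 2 * R ^ 2 := by
    have := (abs_le.mp (pert_cr_le hβ hγ 0)).2
    rw [hθ] at this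
    linarith
  set E : Fin 3 → ℤ := fun k => Q * (cr β eg k + cr eb γ k) + cr eb eg k with hE
  have hEk : ∀ k, |E k| ≤ 4 * (Q * R) + 2 := by
    intro k
    have h1 := pert_cr_le hβ heg k
    have h2 := pert_cr_le heb hγ k
    have h3 := pert_cr_le heb heg k
    have h4 : |cr β eg k + cr eb γ k| ≤ 4 * R := by
      refine (abs_add_le _ _).trans ?_
      linarith
    have h5 : |Q * (cr β eg k + cr eb γ k)| ≤ Q * (4 * R) := by
      rw [abs_mul, abs_of_nonneg (by linarith : (0 : ℤ) ≤ Q)]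
      exact mul_le_mul_of_nonneg_left h4 (by linarith)
    have h6 := abs_add_le (Q * (cr β eg k + cr eb γ k)) (cr eb eg k)
    show |Q * (cr β eg k + cr eb γ k) + cr eb eg k| ≤ _
    linarith
  have hex : ∀ k, cr (pv Q β eb) (pv Q γ eg) k = Q ^ 2 * θ + E k := fun k => by
    rw [pert_expand, hθ]
  have hQR2 : 3000 * (Q * R) ≤ Q ^ 2 := by nlinarith
  have hQRp : 3000 ≤ Q * R := by nlinarith
  have hsm : 100 * (4 * (Q * R) + 2) ≤ Q ^ 2 := by linarith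
  have hQθ : Q ^ 2 ≤ Q ^ 2 * θ := by nlinarith [sq_nonneg Q]
  have hQθ2 : Q ^ 2 * θ ≤ 2 * (Q ^ 2 * R ^ 2) := by nlinarith [sq_nonneg Q]
  have hQ2 : 0 < Q ^ 2 := by positivity
  have hR2 : 1 ≤ R ^ 2 := by linarith
  have hQQ : Q ^ 2 ≤ Q ^ 2 * R ^ 2 := by nlinarith
  refine ⟨fun k => ?_, fun k l => ?_, fun k => ?_, ?_⟩
  · rw [hex]
    have := (abs_le.mp (hEk k)).1
    linarith
  · rw [hex, hex]
    have h1 := (abs_le.mp (hEk k)).2
    have h2 := (abs_le.mp (hEk l)).1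
    linarith
  · rw [hex]
    have h1 := (abs_le.mp (hEk k)).2
    linarith
  · have h1 : ∑ k, cr (pv Q β eb) (pv Q γ eg) k * (Q * α k) =
        Q * (Q ^ 2 * θ * ∑ k, α k + ∑ k, E k * α k) := by
      simp only [hex, Fin.sum_univ_three]
      ring
    have h2 : |∑ k, E k * α k| ≤ 3 * ((4 * (Q * R) + 2) * R) := by
      have h3 : ∀ k, |E k * α k| ≤ (4 * (Q * R) + 2) * R := fun k => by
        rw [abs_mul]
        exact mul_le_mul (hEk k) (hα k) (abs_nonneg _) (by linarith)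
      rw [Fin.sum_univ_three]
      have h4 := abs_add_three (E 0 * α 0) (E 1 * α 1) (E 2 * α 2)
      linarith [h3 0, h3 1, h3 2]
    rw [h1]
    apply mul_pos (by linarith)
    have h5 := (abs_le.mp h2).1
    have h6 : Q ^ 2 ≤ Q ^ 2 * θ * ∑ k, α k := by nlinarith
    have h7 : 3000 * R ^ 2 * Q ≤ Q ^ 2 := by nlinarith
    nlinarith

/-- Bezout in the perturbed lattice. -/
private lemma pert_bez {b g : Fin 3 → ℤ} {i j : Fin 3} (hij : i ≠ j) (hb : ∑ k, b k = 0)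
    (hg : ∑ k, g k = 1) {u w : ℤ} (huw : u * b i + w * b j = 1) :
    ∃ r : Fin 3 → ℤ, ∑ k, r k * cr b g k = 1 := by
  obtain ⟨lam, hlam⟩ : ∃ lam : Fin 3 → ℤ, ∑ k, lam k * b k = 1 := by
    refine ⟨fun k => if k = i then u else if k = j then w else 0, ?_⟩
    have : ∀ k, (if k = i then u else if k = j then w else 0) * b k =
        (if k = i then u * b k else 0) + (if k = j then w * b k else 0) := by
      intro k
      by_cases h1 : k = i
      · have h2 : k ≠ j := fun h => hij (h1 ▸ h)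
        simp [h1, hij]
      · simp [h1]
    rw [Finset.sum_congr rfl fun k _ => this k, Finset.sum_add_distrib]
    simp [huw]
  refine ⟨fun k => lam (k + 1) - lam (k + 2), ?_⟩
  have e1 : ∑ k, (lam (k + 1) - lam (k + 2)) * cr b g k =
      (∑ k, lam k * b k) * (∑ k, g k) - (∑ k, lam k * g k) * ∑ k, b k := by
    simp only [Fin.sum_univ_three, cr_zero, cr_one, cr_two]
    show (lam 1 - lam 2) * _ + (lam 2 - lam 0) * _ + (lam 0 - lam 1) * _ = _
    ring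
  rw [e1, hlam, hg, hb]
  ring

theorem pert {α β γ : Fin 3 → ℤ} {i j : Fin 3} (h : RNF α β γ i j) {R : ℤ}
    (hR : ∀ k, |α k| ≤ R ∧ |β k| ≤ R ∧ |γ k| ≤ R) {B : ℤ} (hB : 1 ≤ B) :
    ∃ (Q : ℤ) (eb eg : Fin 3 → ℤ), (∀ k, |eb k| ≤ 1) ∧ (∀ k, |eg k| ≤ 1) ∧ eg i = 0 ∧
      (∀ k, 0 ≤ eg k) ∧ 3000 * B ≤ Q ∧ Q ≤ 3000 * B * R ^ 3 ∧
      (∀ k, 0 < cr (pv Q β eb) (pv Q γ eg) k) ∧
      (∀ k l, cr (pv Q β eb) (pv Q γ eg) k < 2 * cr (pv Q β eb) (pv Q γ eg) l) ∧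
      (∀ k l, k ≠ l → cr (pv Q β eb) (pv Q γ eg) k ≠ cr (pv Q β eb) (pv Q γ eg) l) ∧
      (∀ k, cr (pv Q β eb) (pv Q γ eg) k ≤ 3 * Q ^ 2 * R ^ 2) ∧
      (∃ r : Fin 3 → ℤ, ∑ k, r k * cr (pv Q β eb) (pv Q γ eg) k = 1) ∧
      0 < ∑ k, cr (pv Q β eb) (pv Q γ eg) k * (Q * α k) := by
  have hneg := h.neg
  have hb := h.hb
  have hc := h.hc
  have hij : i ≠ j := by
    rcases h.ori with h1 | h1
    · rw [h1.1]; exact (pert_n1 i).symm
    · rw [h1.1]; exact (pert_n2 i).symm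
  have hβj : β j ≠ 0 := by
    rcases h.ori with h1 | h1
    · exact h1.2.ne'
    · exact h1.2.ne
  have hβj1 : 1 ≤ |β j| := Int.one_le_abs hβj
  have hR1 : 1 ≤ R := le_trans hβj1 (hR j).2.1
  have hR2 : 1 ≤ R ^ 2 := by nlinarith
  have hBR : B ≤ B * R ^ 2 := by nlinarith
  have hBR' : R ^ 2 ≤ B * R ^ 2 := by nlinarith
  obtain ⟨Q, hQdef⟩ : ∃ Q, Q = |β j| * (3000 * (B * R ^ 2)) := ⟨_, rfl⟩
  have hQ1 : 3000 * (B * R ^ 2) ≤ Q := by rw [hQdef]; nlinarith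
  have hQ2 : Q ≤ 3000 * B * R ^ 3 := by
    have := (hR j).2.1
    rw [hQdef]
    have h0 : 0 ≤ 3000 * (B * R ^ 2) := by positivity
    calc |β j| * (3000 * (B * R ^ 2)) ≤ R * (3000 * (B * R ^ 2)) :=
          mul_le_mul_of_nonneg_right this h0
      _ = _ := by ring
  have hdvd : β j ∣ Q := by
    rw [hQdef]
    exact Dvd.dvd.mul_right ((dvd_abs _ _).mpr dvd_rfl) _
  have hQ3 : 3000 ≤ Q := by linarith
  obtain ⟨eb, heb⟩ : ∃ eb : Fin 3 → ℤ, eb = fun k => if k = i then 1 else if k = j then 0 else -1 :=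
    ⟨_, rfl⟩
  obtain ⟨eg, heg⟩ : ∃ eg : Fin 3 → ℤ, eg = fun k => if k = j then 1 else 0 := ⟨_, rfl⟩
  have hebs : ∑ k, eb k = 0 := by
    rw [heb, Fin.sum_univ_three]
    revert hij
    clear * -
    revert i j
    decide
  have hegs : ∑ k, eg k = 1 := by
    rw [heg]; simp
  have hebi : eb i = 1 := by rw [heb]; simp
  have hebj : eb j = 0 := by rw [heb]; simp [hij.symm]
  have heb1 : ∀ k, |eb k| ≤ 1 := by
    intro k
    rw [heb]
    show |if k = i then (1 : ℤ) else if k = j then 0 else -1| ≤ 1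
    split_ifs <;> simp
  have heg1 : ∀ k, |eg k| ≤ 1 := by
    intro k
    rw [heg]
    show |if k = j then (1 : ℤ) else 0| ≤ 1
    split_ifs <;> simp
  have hc0 : ∀ k, cr β γ k = cr β γ 0 := pert_cr_const h.sb h.sg
  have hsg := h.sg
  have hsb := h.sb
  rw [pert_sum3 _ i] at hsg hsb
  have hg1 := h.nonneg (i + 1) (pert_n1 i)
  have hg2 := h.nonneg (i + 2) (pert_n2 i)
  have hθ1 : 1 ≤ cr β γ 0 := by
    rcases h.ori with ⟨h1, h2⟩ | ⟨h1, h2⟩
    · rw [← hc0 (i + 2)]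
      unfold cr
      rw [pert_a3, pert_a4]
      rw [h1] at h2 hc
      rw [abs_of_pos h2] at hc
      have := pert_pos (x := β i) (w := γ (i + 1)) (y := β (i + 1)) (c := - γ i) (by linarith)
        hg1 (by linarith) (by linarith) hc
      linarith
    · rw [← hc0 (i + 1)]
      unfold cr
      rw [pert_a1, pert_a2]
      rw [h1] at h2 hc
      rw [abs_of_neg h2] at hc
      have := pert_pos (x := - β i) (w := γ (i + 2)) (y := - β (i + 2)) (c := - γ i)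
        (by rw [abs_neg]; linarith) hg2 (by linarith) (by linarith) hc
      linarith
  obtain ⟨r1, r2, r3, r4⟩ := pert_est (α := α) (eb := eb) (eg := eg) (Q := Q) hR1
    (fun k => (hR k).1) (fun k => (hR k).2.1) (fun k => (hR k).2.2) heb1 heg1 hc0 hθ1
    (by linarith) h.pos
  have hsb' : ∑ k, pv Q β eb k = 0 := by
    unfold pv
    rw [Finset.sum_add_distrib, ← Finset.mul_sum, h.sb, hebs]
    ring
  have hsg' : ∑ k, pv Q γ eg k = 1 := by
    unfold pv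
    rw [Finset.sum_add_distrib, ← Finset.mul_sum, h.sg, hegs]
    ring
  have hbne : ∀ k, pv Q β eb k ≠ 0 := by
    intro k
    unfold pv
    by_cases hkj : k = j
    · rw [hkj, hebj, add_zero]
      exact mul_ne_zero (by linarith) hβj
    · intro h0
      have hd : Q ∣ eb k := ⟨- β k, by linarith⟩
      have hek : |eb k| = 1 := by
        rw [heb]
        show |if k = i then (1 : ℤ) else if k = j then 0 else -1| = 1
        split_ifs <;> simp
      have := Int.le_of_dvd (by rw [hek]; norm_num) ((dvd_abs _ _).mpr hd)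
      rw [hek] at this
      linarith
  have hdiff := pert_diff hsb' hsg'
  refine ⟨Q, eb, eg, heb1, heg1, ?_, ?_, by linarith, hQ2, r1, r2, ?_, r3, ?_, r4⟩
  · rw [heg]; simp [hij]
  · intro k
    rw [heg]
    show (0 : ℤ) ≤ if k = j then 1 else 0
    split_ifs <;> norm_num
  · intro k l hkl heq
    rcases pert_fin3 k l with h1 | h1 | h1
    · exact hkl h1.symm
    · have := hdiff k
      rw [← h1, heq] at this
      exact hbne (k + 2) (by linarith)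
    · have := hdiff (k + 2)
      rw [pert_a3, pert_a4, ← h1, heq] at this
      exact hbne (k + 1) (by linarith)
  · have hcop : IsCoprime (pv Q β eb i) (pv Q β eb j) := by
      unfold pv
      rw [hebi, hebj, add_zero]
      have h1 : IsCoprime (Q * β i + 1) Q := ⟨1, - β i, by ring⟩
      have h2 : IsCoprime (Q * β i + 1) (β j) := h1.of_isCoprime_of_dvd_right hdvd
      exact h1.mul_right h2
    obtain ⟨u, w, huw⟩ := hcop
    exact pert_bez hij hsb' hsg' huw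

end Pool.Agent.QDec
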