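import Pool.Agent.QDec.Box

/-!
# Scaling the strict normal form; signs at small heights
-/

namespace Pool.Agent.QDec

open Pool.Hhelper28.Quot

lemma rnf_of_snf {α β γ : Fin 3 → ℤ} {i j : Fin 3} (h : SNF α β γ i j) : RNF α β γ i j where
  sb := h.sb
  sg := h.sg
  neg := h.neg
  nonneg := h.nonneg
  hb := by
    have h1 := h.hb
    have h2 := h.neg
    linarith
  ha := by
    have h1 := h.ha
    have h2 := h.neg
    linarith
  hc := by
    have h1 := h.hc
    have h2 := abs_nonneg (β j)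
    linarith
  hp := by
    have h1 := h.hp
    have h2 := abs_nonneg (β j)
    linarith
  hal := fun k => by
    have h1 := h.hal k
    have h2 := abs_nonneg (β j)
    linarith
  pos := h.pos
  ori := h.ori

lemma rnf_scale {α β γ : Fin 3 → ℤ} {i j : Fin 3} (h : SNF α β γ i j) {L : ℤ} (hL : 10 ≤ L) :
    RNF (fun k => L * α k + 1) (fun k => L * β k) (fun k => L * γ k) i j := by
  have hL0 : (0 : ℤ) < L := by linarith
  have hbj : 1 ≤ |β j| := by
    have h1 := h.hc
    have h2 := h.neg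
    linarith
  have hLb : L ≤ L * |β j| := by nlinarith
  have hLc : L ≤ L * (-γ i) := by
    have h2 := h.neg
    nlinarith
  have habs : ∀ z : ℤ, |L * z| = L * |z| := fun z => by rw [abs_mul, abs_of_pos hL0]
  constructor
  · rw [← Finset.mul_sum, h.sb, mul_zero]
  · rw [← Finset.mul_sum, h.sg, mul_zero]
  · have h2 := h.neg
    show L * γ i ≤ -1
    linarith
  · intro k hk
    exact mul_nonneg hL0.le (h.nonneg k hk)
  · show 10 * |L * β i| ≤ 6 * (-(L * γ i))
    rw [habs]
    have h1 := mul_le_mul_of_nonneg_left h.hb hL0.le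
    linarith
  · show 10 * |L * α i + 1| ≤ 6 * (-(L * γ i))
    have h0 : |L * α i + 1| ≤ L * |α i| + 1 := by
      refine (abs_add_le _ _).trans ?_
      rw [habs, abs_one]
    have h1 := mul_le_mul_of_nonneg_left h.ha hL0.le
    linarith
  · show 10 * (-(L * γ i)) ≤ 11 * |L * β j|
    rw [habs]
    have h1 := mul_le_mul_of_nonneg_left h.hc hL0.le
    linarith
  · show ∑ k, (L * α k + 1) ≤ 4 * |L * β j|
    rw [habs, Finset.sum_add_distrib, ← Finset.mul_sum]
    have h1 := mul_le_mul_of_nonneg_left h.hp hL0.le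
    have h2 : ∑ k : Fin 3, (1 : ℤ) = 3 := by simp
    rw [h2]
    linarith
  · intro k
    show |L * α k + 1| ≤ 6 * |L * β j|
    have h0 : |L * α k + 1| ≤ L * |α k| + 1 := by
      refine (abs_add_le _ _).trans ?_
      rw [habs, abs_one]
    have h1 := mul_le_mul_of_nonneg_left (h.hal k) hL0.le
    rw [habs]
    linarith
  · show 1 ≤ ∑ k, (L * α k + 1)
    rw [Finset.sum_add_distrib, ← Finset.mul_sum]
    have h1 := h.pos
    have h2 : ∑ k : Fin 3, (1 : ℤ) = 3 := by simp
    rw [h2]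
    nlinarith
  · rcases h.ori with ⟨h1, h2⟩ | ⟨h1, h2⟩
    · exact Or.inl ⟨h1, mul_pos hL0 h2⟩
    · exact Or.inr ⟨h1, mul_neg_of_pos_of_neg hL0 h2⟩

/-- A lattice point in the box. -/
lemma witness {α β γ : Fin 3 → ℤ} {i j : Fin 3} (h : SNF α β γ i j) {x : ℤ} (hx : 0 < x)
    (hM : Mem α β γ x) : ∃ t m : ℤ, |t| ≤ 60 * x ∧ |m| ≤ 40 * x ∧ ∀ k, 0 ≤ fm α β γ k x t m := by
  obtain ⟨t, m, hf⟩ := hM
  obtain ⟨h1, m', h2, h3⟩ := box (rnf_of_snf h) (fun _ => 0) (fun _ => 0) (by simp) (by simp) rfl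
    (fun _ => le_rfl) (Q := 3000) le_rfl (x := x) (t := t) (m := m) hx (fun k => by
      have := hf k
      unfold fm
      linarith)
  refine ⟨t, m', h1, h2, fun k => ?_⟩
  have := h3 k
  linarith

lemma fm_scale (α β γ : Fin 3 → ℤ) (L : ℤ) (k : Fin 3) (x t m : ℤ) :
    fm (fun k => L * α k + 1) (fun k => L * β k) (fun k => L * γ k) k x t m =
      L * fm α β γ k x t m + x := by
  unfold fm
  ring

end Pool.Agent.QDec
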