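import Pool.Agent.QDec.Def

/-!
# Semigroups: agreement up to `2 n + 2`, and embedding dimension three
-/

namespace Pool.Agent.QDec

open Pool.Hhelper28.Quot

/-- Two additively closed sets containing `0`, one containing all `x > n`, which agree up to
`2 n + 2` are equal. PROOF: strong induction shows that every `x > n` is in `S'`: for
`x ≤ 2 n + 2` by agreement, for `x > 2 n + 2`: `x = (n + 1) + (x - n - 1)` and
`n < x - n - 1 < x`. -/
theorem eq_of_agree {S S' : Set ℕ} {n : ℕ} (hS' : ∀ x ∈ S', ∀ y ∈ S', x + y ∈ S')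
    (hn : ∀ x, n < x → x ∈ S) (h : ∀ x, x ≤ 2 * n + 2 → (x ∈ S' ↔ x ∈ S)) : S' = S := by
  have key : ∀ x, n < x → x ∈ S' := by
    intro x
    induction x using Nat.strong_induction_on with
    | _ x ih =>
      intro hx
      rcases Nat.lt_or_ge (2 * n + 2) x with h1 | h1
      · have h2 : n + 1 ∈ S' := (h (n + 1) (by omega)).2 (hn (n + 1) (by omega))
        have h3 : x - n - 1 ∈ S' := ih (x - n - 1) (by omega) (by omega)
        have h4 := hS' _ h2 _ h3
        have h5 : n + 1 + (x - n - 1) = x := by omega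
        rwa [h5] at h4
      · exact (h x h1).2 (hn x hx)
  ext x
  rcases Nat.lt_or_ge n x with h1 | h1
  · exact ⟨fun _ => hn x h1, fun _ => key x h1⟩
  · exact h x (by omega)

/-- The set of all `A u + B v + C w`. -/
def gen (A B C : ℕ) : Set ℕ := {x | ∃ u v w : ℕ, x = A * u + B * v + C * w}

/-- `gen A B C` is the additive monoid generated by `{A, B, C}`. -/
theorem gen_eq (A B C : ℕ) :
    gen A B C = (AddSubmonoid.closure ((({A, B, C} : Finset ℕ) : Set ℕ)) : Set ℕ) := by
  ext x
  constructor
  · rintro ⟨u, v, w, rfl⟩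
    have hA : A ∈ AddSubmonoid.closure ((({A, B, C} : Finset ℕ) : Set ℕ)) :=
      AddSubmonoid.subset_closure (by simp)
    have hB : B ∈ AddSubmonoid.closure ((({A, B, C} : Finset ℕ) : Set ℕ)) :=
      AddSubmonoid.subset_closure (by simp)
    have hC : C ∈ AddSubmonoid.closure ((({A, B, C} : Finset ℕ) : Set ℕ)) :=
      AddSubmonoid.subset_closure (by simp)
    have h := add_mem (add_mem (nsmul_mem hA u) (nsmul_mem hB v)) (nsmul_mem hC w)
    simp only [smul_eq_mul] at h
    rw [mul_comm u, mul_comm v, mul_comm w] at h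
    exact h
  · intro hx
    induction hx using AddSubmonoid.closure_induction with
    | mem y hy =>
      simp only [Finset.coe_insert, Finset.coe_singleton, Set.mem_insert_iff,
        Set.mem_singleton_iff] at hy
      rcases hy with rfl | rfl | rfl
      · exact ⟨1, 0, 0, by ring⟩
      · exact ⟨0, 1, 0, by ring⟩
      · exact ⟨0, 0, 1, by ring⟩
    | zero => exact ⟨0, 0, 0, by ring⟩
    | add y z _ _ hy hz =>
      obtain ⟨u, v, w, rfl⟩ := hy
      obtain ⟨u', v', w', rfl⟩ := hz
      exact ⟨u + u', v + v', w + w', by ring⟩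

/-- If the gcd is one, `gen A B C` is a numerical semigroup. PROOF: closure under addition is clear;
for cofiniteness use `Nat.exists_mem_closure_of_ge` (Mathlib/NumberTheory/FrobeniusNumber) with
`gen_eq` (`Nat.setGcd {A,B,C} ∣ 1`), or a direct argument from the Bezout relation. -/
theorem gen_isNS {A B C : ℕ} {r s t : ℤ} (h : r * A + s * B + t * C = 1) : IsNS (gen A B C) := by
  refine ⟨⟨0, 0, 0, by ring⟩, ?_, ?_⟩
  · rintro x ⟨u, v, w, rfl⟩ y ⟨u', v', w', rfl⟩
    exact ⟨u + u', v + v', w + w', by ring⟩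
  · obtain ⟨n, hn⟩ := Nat.exists_mem_closure_of_ge ((({A, B, C} : Finset ℕ) : Set ℕ))
    have hd : Nat.setGcd ((({A, B, C} : Finset ℕ) : Set ℕ)) ∣ 1 := by
      have hA : Nat.setGcd ((({A, B, C} : Finset ℕ) : Set ℕ)) ∣ A :=
        Nat.setGcd_dvd_of_mem (by simp)
      have hB : Nat.setGcd ((({A, B, C} : Finset ℕ) : Set ℕ)) ∣ B :=
        Nat.setGcd_dvd_of_mem (by simp)
      have hC : Nat.setGcd ((({A, B, C} : Finset ℕ) : Set ℕ)) ∣ C :=
        Nat.setGcd_dvd_of_mem (by simp)
      have h1 : ((Nat.setGcd ((({A, B, C} : Finset ℕ) : Set ℕ)) : ℕ) : ℤ) ∣ 1 := by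
        rw [← h]
        exact dvd_add (dvd_add (Dvd.dvd.mul_left (Int.natCast_dvd_natCast.2 hA) r)
          (Dvd.dvd.mul_left (Int.natCast_dvd_natCast.2 hB) s))
          (Dvd.dvd.mul_left (Int.natCast_dvd_natCast.2 hC) t)
      exact_mod_cast h1
    refine (Set.finite_lt_nat n).subset ?_
    intro x hx
    by_contra hc
    apply hx
    rw [gen_eq]
    exact hn x (not_lt.1 hc) (hd.trans (one_dvd x))

/-- Embedding dimension three: minimal generating set with three elements. -/
def Emb3 (T : Set ℕ) : Prop :=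
  ∃ D : Finset ℕ, D.card = 3 ∧ (AddSubmonoid.closure (D : Set ℕ) : Set ℕ) = T ∧
    ∀ E : Finset ℕ, E ⊂ D → (AddSubmonoid.closure (E : Set ℕ) : Set ℕ) ≠ T

/-- Distinct positive numbers, each less than twice each other one, minimally generate.
PROOF: `E ⊂ {A,B,C}` misses one of them, say `A` (it suffices to treat the three two-element sets
and monotonicity of closure). If `A ∈ closure {B, C}`, `A = B v + C w`: `v + w = 0` gives `A = 0`,
`v + w = 1` gives `A = B` or `A = C`, `v + w ≥ 2` gives `A ≥ 2 min(B, C) > A`. -/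
theorem emb3 {A B C : ℕ} (h0 : 0 < A ∧ 0 < B ∧ 0 < C) (h1 : A ≠ B ∧ B ≠ C ∧ A ≠ C)
    (h2 : A < 2 * B ∧ A < 2 * C ∧ B < 2 * A ∧ B < 2 * C ∧ C < 2 * A ∧ C < 2 * B) :
    Emb3 (gen A B C) := by
  refine ⟨{A, B, C}, Finset.card_eq_three.2 ⟨A, B, C, h1.1, h1.2.2, h1.2.1, rfl⟩,
    (gen_eq A B C).symm, ?_⟩
  intro E hE heq
  obtain ⟨a, haD, haE⟩ := Finset.exists_of_ssubset hE
  have hsmall : ∀ e ∈ E, a < 2 * e := by
    intro e he
    have heD := hE.1 he
    have hne : e ≠ a := fun h => haE (h ▸ he)
    simp only [Finset.mem_insert, Finset.mem_singleton] at haD heD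
    rcases haD with rfl | rfl | rfl <;> rcases heD with rfl | rfl | rfl <;>
      first
        | exact absurd rfl hne
        | omega
  have ha0 : 0 < a := by
    simp only [Finset.mem_insert, Finset.mem_singleton] at haD
    rcases haD with rfl | rfl | rfl
    · exact h0.1
    · exact h0.2.1
    · exact h0.2.2
  have hmem : a ∈ AddSubmonoid.closure (E : Set ℕ) := by
    have h3 : a ∈ gen A B C := by
      rw [gen_eq]
      exact AddSubmonoid.subset_closure (by exact_mod_cast haD)
    rw [← heq] at h3
    exact h3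
  have key : ∀ x ∈ AddSubmonoid.closure (E : Set ℕ), x = 0 ∨ x ∈ E ∨ a < x := by
    intro x hx
    induction hx using AddSubmonoid.closure_induction with
    | mem y hy => exact Or.inr (Or.inl (by exact_mod_cast hy))
    | zero => exact Or.inl rfl
    | add y z _ _ hy hz =>
      rcases hy with rfl | hy
      · rwa [zero_add]
      · rcases hz with rfl | hz
        · rw [add_zero]
          exact Or.inr hy
        · right; right
          have h4 : a < 2 * y := by
            rcases hy with hy | hy
            · exact hsmall y hy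
            · omega
          have h5 : a < 2 * z := by
            rcases hz with hz | hz
            · exact hsmall z hz
            · omega
          omega
  rcases key a hmem with h3 | h3 | h3
  · omega
  · exact haE h3
  · omega

end Pool.Agent.QDec
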