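import Mathlib

/-!
# Small integer vectors with the same signs on small integer forms

THEOREM. For `x0 : n → ℤ` and `H ≥ 1` there is `x : n → ℤ` with `|x j| ≤ (card n)! H ^ card n` such
that for every `a : n → ℤ` with all `|a j| ≤ H`: `a · x0 ≥ 0` implies `a · x ≥ 0`, and
`a · x0 ≥ 1` implies `a · x ≥ 1`.

PROOF. Constraints: `ι` = the (finite) type of pairs `(a, b)`, `|a j| ≤ H`, `b ∈ {0, 1}`, with
`b ≤ a · x0`. Polyhedron `P = {y : n → ℚ | ∀ (a,b) ∈ ι, b ≤ a · y}`, `x0 ∈ P`.
(1) VERTEX: some `y ∈ P` has tight rows `{a | (a,b) ∈ ι, a · y = b}` spanning `n → ℚ`. Choose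
`y ∈ P` with the `finrank` of the span `W` of the tight rows maximal. If `W ≠ ⊤` there is
`v ≠ 0` in `n → ℚ` with `a · v = 0` for all tight `a` (a nonzero linear form vanishing on `W`, e.g.
`Submodule.exists_le_ker_of_lt_top` or `Submodule.exists_dual_map_eq_bot_of_lt_top`, written as a dot
product). Some row of `ι` has `a · v ≠ 0`: choose `j` with `v j ≠ 0`; one of
`(e_j, 0)`, `(-e_j, 0)` is in `ι` (as `H ≥ 1`). Replacing `v` by `-v` some row has `a · v < 0`. Let
`J` = the rows with `a · v < 0` (nonempty, none tight), `s = min over J of (a · y - b) / (-(a · v))`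
(`s > 0`, `Finset.exists_min_image`). `y' = y + s v` is in `P`, all rows tight at `y` are tight at
`y'`, and the minimiser is tight at `y'` and is not in `W` (since `W ⊆ v^⊥`). So the rank at `y'` is
larger, contradiction.
(2) CRAMER: choose a basis of `n → ℚ` among the tight rows (`exists_linearIndependent` /
`Module.Basis`...), indexed by `n`: rows `(a_r, b_r)`, `r : n`. `A = (a_r j) : Matrix n n ℤ`,
`det A ≠ 0`, `b : n → ℤ`. Put `X = cramer A b` (integer vector); `A *ᵥ X = det A • b`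
(`Matrix.mulVec_cramer`), and `A *ᵥ y = b`, so `X = det A • y` (injectivity over ℚ). Take
`x = sign(det A) X = |det A| y`: for `(a,b) ∈ ι`: `a · x = |det A| (a · y) ≥ |det A| b ≥ b`
(`|det A| ≥ 1`, `b ≥ 0`). Bound: `|X j| = |det (A.updateCol j b)| ≤ (card n)! H ^ card n` by
`Matrix.det_le` (entries are `≤ H`, `b_r ≤ 1 ≤ H`).
-/

namespace Pool.Agent.QDec

open Finset in
/-- the value of a row -/
private def svDot {n : Type} [Fintype n] (a : n → ℤ) (y : n → ℚ) : ℚ := ∑ j, (a j : ℚ) * y j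

private theorem svDot_add {n : Type} [Fintype n] (a : n → ℤ) (y v : n → ℚ) (s : ℚ) :
    svDot a (fun j => y j + s * v j) = svDot a y + s * svDot a v := by
  unfold svDot
  rw [Finset.mul_sum, ← Finset.sum_add_distrib]
  exact Finset.sum_congr rfl fun j _ => by ring

private theorem svDot_neg {n : Type} [Fintype n] (a : n → ℤ) (v : n → ℚ) :
    svDot a (fun j => - v j) = - svDot a v := by
  unfold svDot
  rw [← Finset.sum_neg_distrib]
  exact Finset.sum_congr rfl fun j _ => by ring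

/-- moving to a face of smaller dimension -/
private theorem sv_improve {n : Type} [Fintype n] (C : Finset ((n → ℤ) × ℤ)) (y v : n → ℚ)
    (hP : ∀ p ∈ C, (p.2 : ℚ) ≤ svDot p.1 y)
    (hv : ∀ p ∈ C, svDot p.1 y = p.2 → svDot p.1 v = 0)
    (hq : ∃ q ∈ C, svDot q.1 v < 0) :
    ∃ y' : n → ℚ, (∀ p ∈ C, (p.2 : ℚ) ≤ svDot p.1 y') ∧
      (∀ p ∈ C, svDot p.1 y = p.2 → svDot p.1 y' = p.2) ∧
      ∃ p ∈ C, svDot p.1 y' = p.2 ∧ svDot p.1 v < 0 := by
  classical
  obtain ⟨q, hqC, hqv⟩ := hq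
  have hne : (C.filter fun p => svDot p.1 v < 0).Nonempty := ⟨q, Finset.mem_filter.2 ⟨hqC, hqv⟩⟩
  obtain ⟨p0, hp0, hmin⟩ := (C.filter fun p => svDot p.1 v < 0).exists_min_image
    (fun p => (svDot p.1 y - p.2) / (-svDot p.1 v)) hne
  obtain ⟨hp0C, hp0v⟩ := Finset.mem_filter.1 hp0
  obtain ⟨s, hs⟩ : ∃ s : ℚ, s = (svDot p0.1 y - p0.2) / (-svDot p0.1 v) := ⟨_, rfl⟩
  have hs0 : 0 ≤ s := by
    rw [hs]
    exact div_nonneg (by linarith [hP p0 hp0C]) (by linarith)
  refine ⟨fun j => y j + s * v j, ?_, ?_, p0, hp0C, ?_, hp0v⟩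
  · intro p hp
    rw [svDot_add]
    have h1 := hP p hp
    rcases le_or_gt 0 (svDot p.1 v) with h | h
    · have := mul_nonneg hs0 h
      linarith
    · have h2 := hmin p (Finset.mem_filter.2 ⟨hp, h⟩)
      rw [← hs, le_div_iff₀ (by linarith)] at h2
      linarith
  · intro p hp h
    rw [svDot_add, hv p hp h, mul_zero, add_zero, h]
  · rw [svDot_add]
    have h2 : s * (-svDot p0.1 v) = svDot p0.1 y - p0.2 := by
      rw [hs]
      exact div_mul_cancel₀ _ (by linarith)
    linarith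

/-- the span of the tight rows -/
private def svSpan {n : Type} [Fintype n] (C : Finset ((n → ℤ) × ℤ)) (y : n → ℚ) :
    Submodule ℚ (n → ℚ) :=
  Submodule.span ℚ {w | ∃ p ∈ C, svDot p.1 y = p.2 ∧ w = fun j => (p.1 j : ℚ)}

private theorem sv_form {n : Type} [Fintype n] [DecidableEq n] (f : (n → ℚ) →ₗ[ℚ] ℚ) (a : n → ℤ) :
    f (fun j => (a j : ℚ)) = svDot a (fun j => f (fun i => if j = i then 1 else 0)) := by
  rw [LinearMap.pi_apply_eq_sum_univ f]
  rfl

private theorem sv_vertex {n : Type} [Fintype n] [DecidableEq n] (C : Finset ((n → ℤ) × ℤ))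
    (hC : ∀ j, ((fun i => if i = j then 1 else 0, 0) : (n → ℤ) × ℤ) ∈ C ∨
      ((fun i => if i = j then -1 else 0, 0) : (n → ℤ) × ℤ) ∈ C) (k : ℕ) :
    ∀ y : n → ℚ, (∀ p ∈ C, (p.2 : ℚ) ≤ svDot p.1 y) →
      Fintype.card n ≤ Module.finrank ℚ (svSpan C y) + k →
      ∃ y' : n → ℚ, (∀ p ∈ C, (p.2 : ℚ) ≤ svDot p.1 y') ∧ svSpan C y' = ⊤ := by
  induction k with
  | zero =>
    intro y hy hk
    refine ⟨y, hy, ?_⟩
    apply Submodule.eq_top_of_finrank_eq
    rw [Module.finrank_fintype_fun_eq_card]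
    refine le_antisymm ?_ (by simpa using hk)
    have := Submodule.finrank_le (svSpan C y)
    rwa [Module.finrank_fintype_fun_eq_card] at this
  | succ k ih =>
    intro y hy hk
    by_cases htop : svSpan C y = ⊤
    · exact ⟨y, hy, htop⟩
    obtain ⟨f, hf0, hf⟩ := Submodule.exists_le_ker_of_lt_top _ (lt_top_iff_ne_top.2 htop)
    -- the vector of the form
    obtain ⟨v, hv⟩ : ∃ v : n → ℚ, v = fun j => f (fun i => if j = i then 1 else 0) := ⟨_, rfl⟩
    have hfv : ∀ a : n → ℤ, f (fun j => (a j : ℚ)) = svDot a v := fun a => by rw [hv, sv_form]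
    have htight : ∀ p ∈ C, svDot p.1 y = p.2 → svDot p.1 v = 0 := by
      intro p hp h
      rw [← hfv]
      exact hf (Submodule.subset_span ⟨p, hp, h, rfl⟩)
    obtain ⟨j, hj⟩ : ∃ j, v j ≠ 0 := by
      by_contra hcon
      push Not at hcon
      apply hf0
      refine LinearMap.ext fun w => ?_
      rw [LinearMap.zero_apply, LinearMap.pi_apply_eq_sum_univ f]
      refine Finset.sum_eq_zero fun i _ => ?_
      have h1 : (f fun j => if i = j then 1 else 0) = 0 := by
        have h2 := hcon i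
        rw [hv] at h2
        exact h2
      rw [h1, smul_zero]
    have hd1 : svDot (fun i => if i = j then 1 else 0) v = v j := by
      unfold svDot
      rw [Finset.sum_eq_single j]
      · simp
      · intro i _ hi
        simp [hi]
      · simp
    have hd2 : svDot (fun i => if i = j then -1 else 0) v = -v j := by
      unfold svDot
      rw [Finset.sum_eq_single j]
      · simp
      · intro i _ hi
        simp [hi]
      · simp
    obtain ⟨q, hqC, hq⟩ : ∃ q ∈ C, svDot q.1 v ≠ 0 := by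
      rcases hC j with h | h
      · exact ⟨_, h, by simpa only [hd1] using hj⟩
      · exact ⟨_, h, by simpa only [hd2, ne_eq, neg_eq_zero] using hj⟩
    -- choose the sign
    obtain ⟨v', hv'f, hv'⟩ : ∃ v' : n → ℚ, (∀ a : n → ℤ, svDot a v' = svDot a v ∨ svDot a v' = -svDot a v) ∧
        ∃ q ∈ C, svDot q.1 v' < 0 := by
      rcases lt_or_gt_of_ne hq with h | h
      · exact ⟨v, fun a => Or.inl rfl, q, hqC, h⟩
      · refine ⟨fun j => - v j, fun a => Or.inr (svDot_neg a v), q, hqC, ?_⟩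
        rw [svDot_neg]
        linarith
    have htight' : ∀ p ∈ C, svDot p.1 y = p.2 → svDot p.1 v' = 0 := by
      intro p hp h
      have h1 := htight p hp h
      rcases hv'f p.1 with h2 | h2
      · rw [h2, h1]
      · rw [h2, h1, neg_zero]
    obtain ⟨y', hy', hkeep, p, hpC, hp1, hp2⟩ := sv_improve C y v' hy htight' hv'
    refine ih y' hy' ?_
    have hle : svSpan C y ≤ svSpan C y' := by
      refine Submodule.span_mono ?_
      rintro w ⟨r, hr, h1, h2⟩
      exact ⟨r, hr, hkeep r hr h1, h2⟩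
    have hlt : svSpan C y < svSpan C y' := by
      refine lt_of_le_of_ne hle fun heq => ?_
      have h1 : (fun j => (p.1 j : ℚ)) ∈ svSpan C y := by
        rw [heq]
        exact Submodule.subset_span ⟨p, hpC, hp1, rfl⟩
      have h2 : f (fun j => (p.1 j : ℚ)) = 0 := hf h1
      rw [hfv] at h2
      rcases hv'f p.1 with h3 | h3
      · rw [h3, h2] at hp2
        exact lt_irrefl _ hp2
      · rw [h3, h2, neg_zero] at hp2
        exact lt_irrefl _ hp2
    have := Submodule.finrank_lt_finrank_of_lt hlt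
    omega

theorem small_vector {n : Type} [Fintype n] [DecidableEq n] (x0 : n → ℤ) (H : ℤ) (hH : 1 ≤ H) :
    ∃ x : n → ℤ, (∀ j, |x j| ≤ (Fintype.card n).factorial * H ^ Fintype.card n) ∧
      ∀ a : n → ℤ, (∀ j, |a j| ≤ H) →
        (0 ≤ ∑ j, a j * x0 j → 0 ≤ ∑ j, a j * x j) ∧
        (1 ≤ ∑ j, a j * x0 j → 1 ≤ ∑ j, a j * x j) := by
  classical
  obtain ⟨C, hCdef⟩ : ∃ C : Finset ((n → ℤ) × ℤ), C =
      ((Fintype.piFinset fun _ : n => Finset.Icc (-H) H) ×ˢ ({0, 1} : Finset ℤ)).filter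
        (fun p => p.2 ≤ ∑ j, p.1 j * x0 j) := ⟨_, rfl⟩
  have hCmem : ∀ (a : n → ℤ) (b : ℤ), (a, b) ∈ C ↔ ((∀ j, |a j| ≤ H) ∧ (b = 0 ∨ b = 1)) ∧
      b ≤ ∑ j, a j * x0 j := by
    intro a b
    rw [hCdef, Finset.mem_filter, Finset.mem_product, Fintype.mem_piFinset]
    simp only [Finset.mem_Icc, Finset.mem_insert, Finset.mem_singleton, abs_le]
  have hH0 : 0 ≤ H := by linarith
  have hC : ∀ j, ((fun i => if i = j then 1 else 0, 0) : (n → ℤ) × ℤ) ∈ C ∨
      ((fun i => if i = j then -1 else 0, 0) : (n → ℤ) × ℤ) ∈ C := by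
    intro j
    rcases le_total 0 (x0 j) with h | h
    · left
      rw [hCmem]
      refine ⟨⟨fun i => ?_, Or.inl rfl⟩, ?_⟩
      · split_ifs <;> simp [hH, hH0]
      · rw [Finset.sum_eq_single j]
        · simpa using h
        · intro i _ hi
          simp [hi]
        · simp
    · right
      rw [hCmem]
      refine ⟨⟨fun i => ?_, Or.inl rfl⟩, ?_⟩
      · split_ifs <;> simp [hH, hH0]
      · rw [Finset.sum_eq_single j]
        · simpa using h
        · intro i _ hi
          simp [hi]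
        · simp
  have hx0 : ∀ p ∈ C, (p.2 : ℚ) ≤ svDot p.1 (fun j => (x0 j : ℚ)) := by
    rintro ⟨a, b⟩ hp
    have := ((hCmem a b).1 hp).2
    have h2 : ((b : ℤ) : ℚ) ≤ ((∑ j, a j * x0 j : ℤ) : ℚ) := by exact_mod_cast this
    unfold svDot
    push_cast at h2
    exact h2
  obtain ⟨y, hy, htop⟩ := sv_vertex C hC (Fintype.card n) _ hx0 (Nat.le_add_left _ _)
  -- a basis of tight rows
  obtain ⟨B, hBs, hBspan, hBli⟩ := exists_linearIndependent ℚ
    {w : n → ℚ | ∃ p ∈ C, svDot p.1 y = p.2 ∧ w = fun j => (p.1 j : ℚ)}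
  have hBtop : Submodule.span ℚ B = ⊤ := by
    rw [hBspan]
    exact htop
  have hBas := Module.Basis.mk hBli (by rw [Subtype.range_coe, hBtop])
  have hfin : Finite B := Module.Finite.finite_basis hBas
  have hft : Fintype B := Fintype.ofFinite B
  have hcard : Fintype.card n = Fintype.card B := by
    rw [← Module.finrank_eq_card_basis hBas, Module.finrank_fintype_fun_eq_card]
  have e : n ≃ B := Fintype.equivOfCardEq hcard
  have hrow : ∀ r : n, ∃ p ∈ C, svDot p.1 y = p.2 ∧ ((e r : B) : n → ℚ) = fun j => (p.1 j : ℚ) :=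
    fun r => hBs (e r).2
  choose P hPC hPt hPe using hrow
  obtain ⟨A, hA⟩ : ∃ A : Matrix n n ℤ, A = Matrix.of fun r j => (P r).1 j := ⟨_, rfl⟩
  obtain ⟨b, hb⟩ : ∃ b : n → ℤ, b = fun r => (P r).2 := ⟨_, rfl⟩
  have hAq : LinearIndependent ℚ (A.map (Int.cast : ℤ → ℚ)).row := by
    have h1 : (A.map (Int.cast : ℤ → ℚ)).row = fun r => ((e r : B) : n → ℚ) := by
      funext r
      rw [hPe r, hA]
      rfl
    rw [h1]
    exact hBli.comp e e.injective
  have hdetq : (A.map (Int.cast : ℤ → ℚ)).det ≠ 0 := by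
    have h1 := Matrix.linearIndependent_rows_iff_isUnit.1 hAq
    rw [Matrix.isUnit_iff_isUnit_det] at h1
    exact h1.ne_zero
  have hdetc : (A.map (Int.cast : ℤ → ℚ)).det = (A.det : ℚ) := by
    have := (RingHom.map_det (Int.castRingHom ℚ) A)
    rw [eq_intCast] at this
    rw [this]
    rfl
  have hdet0 : (A.det : ℚ) ≠ 0 := by rw [← hdetc]; exact hdetq
  have hdetz : A.det ≠ 0 := by exact_mod_cast hdet0
  obtain ⟨X, hX⟩ : ∃ X : n → ℤ, X = Matrix.cramer A b := ⟨_, rfl⟩
  have hAX : A.mulVec X = A.det • b := by rw [hX]; exact Matrix.mulVec_cramer A b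
  have hXy : ∀ j, (X j : ℚ) = A.det * y j := by
    have h1 : (A.map (Int.cast : ℤ → ℚ)).mulVec (fun j => (X j : ℚ) - A.det * y j) = 0 := by
      funext r
      have h2 := congrFun hAX r
      have h3 := hPt r
      simp only [Matrix.mulVec, dotProduct, Pi.smul_apply, smul_eq_mul] at h2
      unfold svDot at h3
      show ∑ j, (A.map (Int.cast : ℤ → ℚ)) r j * ((X j : ℚ) - A.det * y j) = 0
      have h4 : ∀ j, (A.map (Int.cast : ℤ → ℚ)) r j = (((P r).1 j : ℤ) : ℚ) := by
        intro j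
        rw [hA]
        rfl
      have h5 : ∑ j, (((P r).1 j : ℤ) : ℚ) * (X j : ℚ) = A.det * (P r).2 := by
        have h6 : ∑ j, A r j * X j = A.det * (P r).2 := by rw [h2, hb]
        have h7 : ∑ j, (P r).1 j * X j = A.det * (P r).2 := by
          rw [← h6]
          refine Finset.sum_congr rfl fun j _ => ?_
          rw [show A r j = (P r).1 j by rw [hA]; rfl]
        exact_mod_cast h7
      calc ∑ j, (A.map (Int.cast : ℤ → ℚ)) r j * ((X j : ℚ) - A.det * y j)
          = ∑ j, (((P r).1 j : ℤ) : ℚ) * (X j : ℚ) - A.det * ∑ j, (((P r).1 j : ℤ) : ℚ) * y j := by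
            rw [Finset.mul_sum, ← Finset.sum_sub_distrib]
            refine Finset.sum_congr rfl fun j _ => ?_
            rw [h4]
            ring
        _ = 0 := by
            rw [h5, h3]
            ring
    have h2 := Matrix.eq_zero_of_mulVec_eq_zero hdetq h1
    intro j
    have h3 := congrFun h2 j
    simp only [Pi.zero_apply] at h3
    linarith
  -- bounds for X
  have hXb : ∀ j, |X j| ≤ (Fintype.card n).factorial * H ^ Fintype.card n := by
    intro j
    have h1 := Matrix.det_le (A := A.updateCol j b) (abv := AbsoluteValue.abs) (x := H) (by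
      intro r i
      rw [Matrix.updateCol_apply]
      have hPr := (hCmem (P r).1 (P r).2).1 (hPC r)
      split_ifs with hij
      · rw [hb]
        show |(P r).2| ≤ H
        rcases hPr.1.2 with h | h <;> rw [h] <;> simp [hH, hH0]
      · rw [hA]
        exact hPr.1.1 i)
    rw [hX, Matrix.cramer_apply]
    simpa using h1
  have hsign : ∃ σ : ℤ, |σ| = 1 ∧ σ * A.det = |A.det| := by
    rcases lt_or_gt_of_ne hdetz with h | h
    · exact ⟨-1, by simp, by rw [abs_of_neg h]; ring⟩
    · exact ⟨1, by simp, by rw [abs_of_pos h]; ring⟩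
  obtain ⟨σ, hσ1, hσ2⟩ := hsign
  have hdabs : (1 : ℚ) ≤ ((|A.det| : ℤ) : ℚ) := by
    have : (1 : ℤ) ≤ |A.det| := Int.one_le_abs hdetz
    exact_mod_cast this
  have hval : ∀ a : n → ℤ, ((∑ j, a j * (σ * X j) : ℤ) : ℚ) = ((|A.det| : ℤ) : ℚ) * svDot a y := by
    intro a
    unfold svDot
    rw [← hσ2, Finset.mul_sum, Int.cast_sum]
    refine Finset.sum_congr rfl fun j _ => ?_
    rw [Int.cast_mul, Int.cast_mul, Int.cast_mul, hXy j]
    ring
  refine ⟨fun j => σ * X j, ?_, ?_⟩
  · intro j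
    rw [abs_mul, hσ1, one_mul]
    exact hXb j
  · intro a ha
    constructor
    · intro h
      have h1 := hy (a, 0) ((hCmem a 0).2 ⟨⟨ha, Or.inl rfl⟩, h⟩)
      have h2 : (0 : ℚ) ≤ ((∑ j, a j * (σ * X j) : ℤ) : ℚ) := by
        rw [hval]
        have h3 : (0 : ℚ) ≤ svDot a y := by simpa using h1
        exact mul_nonneg (by linarith) h3
      exact_mod_cast h2
    · intro h
      have h1 := hy (a, 1) ((hCmem a 1).2 ⟨⟨ha, Or.inr rfl⟩, h⟩)
      have h2 : (1 : ℚ) ≤ ((∑ j, a j * (σ * X j) : ℤ) : ℚ) := by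
        rw [hval]
        have h3 : (1 : ℚ) ≤ svDot a y := by simpa using h1
        nlinarith
      exact_mod_cast h2

end Pool.Agent.QDec
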