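import Pool.Agent.QDec.Def
import Pool.Agent.QDec.SV

/-!
# Small forms in relaxed normal form with the same signs

PROOF. Apply `small_vector` with index type `Fin 3 × Fin 3` (card 9), `x0 (0,k) = α k`,
`x0 (1,k) = β k`, `x0 (2,k) = γ k`. Each claim is a linear inequality with coefficients of absolute
value at most `max 60 H'`... (`H ≥ 11`): `∑ β = 0` and `∑ γ = 0` (two inequalities each), `γ i ≤ -1`,
`γ k ≥ 0`, `6 (-γ i) ± 10 β i ≥ 0`, `6(-γ i) ± 10 α i ≥ 0`; the sign of `β j` (`β j ≥ 1` or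
`-β j ≥ 1`) is preserved, so `|β j| = s β j` with the same sign `s` for both vectors and the others
are linear too. For the last claim use the rows `(x, t, m)` at the places `(0,k), (1,k), (2,k)`.
It is convenient to prove first a lemma: for all `u v w : Fin 3 → ℤ` with entries of absolute value
`≤ H`: `0 ≤ ∑ (u k α k + v k β k + w k γ k)` implies the same for the new forms, and with `1 ≤`.
-/

namespace Pool.Agent.QDec

open Pool.Hhelper28.Quot

private theorem Tr_key (α β γ : Fin 3 → ℤ) (H : ℤ) (hH : 11 ≤ H) :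
    ∃ α' β' γ' : Fin 3 → ℤ,
      (∀ k, |α' k| ≤ 362880 * H ^ 9 ∧ |β' k| ≤ 362880 * H ^ 9 ∧ |γ' k| ≤ 362880 * H ^ 9) ∧
      ∀ u v w : Fin 3 → ℤ, (∀ k, |u k| ≤ H) → (∀ k, |v k| ≤ H) → (∀ k, |w k| ≤ H) →
        (0 ≤ ∑ k, u k * α k + ∑ k, v k * β k + ∑ k, w k * γ k →
          0 ≤ ∑ k, u k * α' k + ∑ k, v k * β' k + ∑ k, w k * γ' k) ∧
        (1 ≤ ∑ k, u k * α k + ∑ k, v k * β k + ∑ k, w k * γ k →
          1 ≤ ∑ k, u k * α' k + ∑ k, v k * β' k + ∑ k, w k * γ' k) := by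
  obtain ⟨x, hx, hx'⟩ := small_vector (n := Fin 3 × Fin 3)
    (fun p => (![α, β, γ] : Fin 3 → Fin 3 → ℤ) p.1 p.2) H (by omega)
  have hcard : Fintype.card (Fin 3 × Fin 3) = 9 := by decide
  rw [hcard] at hx
  have h9 : ((Nat.factorial 9 : ℕ) : ℤ) = 362880 := by norm_num [Nat.factorial]
  rw [h9] at hx
  refine ⟨fun k => x (0, k), fun k => x (1, k), fun k => x (2, k),
    fun k => ⟨hx _, hx _, hx _⟩, ?_⟩
  intro u v w hu hv hw
  have h1 := hx' (fun p => (![u, v, w] : Fin 3 → Fin 3 → ℤ) p.1 p.2) (by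
    rintro ⟨p, q⟩
    fin_cases p
    · exact hu q
    · exact hv q
    · exact hw q)
  simpa [Fintype.sum_prod_type, Fin.sum_univ_three, add_assoc] using h1

private theorem Tr_sum (α : Fin 3 → ℤ) (k : Fin 3) (a b : ℤ) :
    ∑ l, ((if l = k then a else 0) + b) * α l = a * α k + b * ∑ l, α l := by
  simp [add_mul, Finset.sum_add_distrib, Finset.mul_sum]

private theorem Tr_abs (k : Fin 3) (a b H : ℤ) (h : |a| + |b| ≤ H) (l : Fin 3) :
    |(if l = k then a else 0) + b| ≤ H := by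
  have h1 := abs_nonneg a
  have h2 := abs_nonneg b
  split_ifs
  · exact (abs_add_le a b).trans h
  · rw [zero_add]
    omega

private theorem Tr_gen (α β γ : Fin 3 → ℤ) (H : ℤ) (hH : 11 ≤ H) :
    ∃ α' β' γ' : Fin 3 → ℤ,
      (∀ k, |α' k| ≤ 362880 * H ^ 9 ∧ |β' k| ≤ 362880 * H ^ 9 ∧ |γ' k| ≤ 362880 * H ^ 9) ∧
      ∀ (k k' k'' : Fin 3) (a b c d e f : ℤ), |a| + |b| ≤ H → |c| + |d| ≤ H → |e| + |f| ≤ H →
        (0 ≤ a * α k + b * ∑ l, α l + (c * β k' + d * ∑ l, β l) + (e * γ k'' + f * ∑ l, γ l) →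
          0 ≤ a * α' k + b * ∑ l, α' l + (c * β' k' + d * ∑ l, β' l) +
            (e * γ' k'' + f * ∑ l, γ' l)) ∧
        (1 ≤ a * α k + b * ∑ l, α l + (c * β k' + d * ∑ l, β l) + (e * γ k'' + f * ∑ l, γ l) →
          1 ≤ a * α' k + b * ∑ l, α' l + (c * β' k' + d * ∑ l, β' l) +
            (e * γ' k'' + f * ∑ l, γ' l)) := by
  obtain ⟨α', β', γ', hb, hk⟩ := Tr_key α β γ H hH
  refine ⟨α', β', γ', hb, ?_⟩
  intro k k' k'' a b c d e f h1 h2 h3
  have h4 := hk (fun l => (if l = k then a else 0) + b) (fun l => (if l = k' then c else 0) + d)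
    (fun l => (if l = k'' then e else 0) + f) (Tr_abs k a b H h1) (Tr_abs k' c d H h2)
    (Tr_abs k'' e f H h3)
  simpa only [Tr_sum] using h4

theorem transfer (α β γ : Fin 3 → ℤ) (i j : Fin 3) (h : RNF α β γ i j) (H : ℤ) (hH : 11 ≤ H) :
    ∃ α' β' γ' : Fin 3 → ℤ, RNF α' β' γ' i j ∧
      (∀ k, |α' k| ≤ 362880 * H ^ 9 ∧ |β' k| ≤ 362880 * H ^ 9 ∧ |γ' k| ≤ 362880 * H ^ 9) ∧
      ∀ (k : Fin 3) (x t m : ℤ), |x| ≤ H → |t| ≤ H → |m| ≤ H →
        (1 ≤ fm α β γ k x t m → 1 ≤ fm α' β' γ' k x t m) ∧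
        (fm α β γ k x t m ≤ -1 → fm α' β' γ' k x t m ≤ -1) := by
  obtain ⟨α', β', γ', hb, hk⟩ := Tr_gen α β γ H hH
  have c0 : |(0 : ℤ)| + |(0 : ℤ)| ≤ H := by norm_num; omega
  have cc : ∀ a b : ℤ, |a| + |b| ≤ 11 → |a| + |b| ≤ H := fun a b h => h.trans hH
  -- the sign of `β j`
  obtain ⟨s, hs, hβ, hβ'⟩ : ∃ s : ℤ, (s = 1 ∨ s = -1) ∧ |β j| = s * β j ∧ |β' j| = s * β' j ∧
      ((j = i + 1 ∧ 0 < β' j) ∨ (j = i + 2 ∧ β' j < 0)) := by
    rcases h.ori with ⟨h1, h2⟩ | ⟨h1, h2⟩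
    · have h3 := (hk 0 j 0 0 0 1 0 0 0 c0 (cc 1 0 (by norm_num)) c0).2 (by linarith)
      have h4 : 0 < β' j := by linarith
      exact ⟨1, Or.inl rfl, by rw [abs_of_pos h2, one_mul], by rw [abs_of_pos h4, one_mul],
        Or.inl ⟨h1, h4⟩⟩
    · have h3 := (hk 0 j 0 0 0 (-1) 0 0 0 c0 (cc (-1) 0 (by norm_num)) c0).2 (by linarith)
      have h4 : β' j < 0 := by linarith
      exact ⟨-1, Or.inr rfl, by rw [abs_of_neg h2, neg_one_mul],
        by rw [abs_of_neg h4, neg_one_mul], Or.inr ⟨h1, h4⟩⟩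
  obtain ⟨hβ', hori⟩ := hβ'
  have hsabs : |s| = 1 := by rcases hs with rfl | rfl <;> norm_num
  refine ⟨α', β', γ', ?_, hb, ?_⟩
  · have hsb := h.sb
    have hsg := h.sg
    have hhb := abs_le.1 (show |10 * β i| ≤ 6 * (-γ i) by
      rw [abs_mul]; exact h.hb)
    have hha := abs_le.1 (show |10 * α i| ≤ 6 * (-γ i) by
      rw [abs_mul]; exact h.ha)
    have hhc := h.hc
    have hhp := h.hp
    rw [hβ] at hhc hhp
    refine ⟨?_, ?_, ?_, ?_, ?_, ?_, ?_, ?_, ?_, ?_, hori⟩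
    · have h1 := (hk 0 0 0 0 0 0 1 0 0 c0 (cc 0 1 (by norm_num)) c0).1 (by linarith)
      have h2 := (hk 0 0 0 0 0 0 (-1) 0 0 c0 (cc 0 (-1) (by norm_num)) c0).1 (by linarith)
      linarith
    · have h1 := (hk 0 0 0 0 0 0 0 0 1 c0 c0 (cc 0 1 (by norm_num))).1 (by linarith)
      have h2 := (hk 0 0 0 0 0 0 0 0 (-1) c0 c0 (cc 0 (-1) (by norm_num))).1 (by linarith)
      linarith
    · have h1 := (hk 0 0 i 0 0 0 0 (-1) 0 c0 c0 (cc (-1) 0 (by norm_num))).2
        (by linarith [h.neg])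
      linarith
    · intro k hki
      have h1 := (hk 0 0 k 0 0 0 0 1 0 c0 c0 (cc 1 0 (by norm_num))).1
        (by linarith [h.nonneg k hki])
      linarith
    · have h1 := (hk 0 i i 0 0 10 0 (-6) 0 c0 (cc 10 0 (by norm_num))
        (cc (-6) 0 (by norm_num))).1 (by linarith [hhb.1])
      have h2 := (hk 0 i i 0 0 (-10) 0 (-6) 0 c0 (cc (-10) 0 (by norm_num))
        (cc (-6) 0 (by norm_num))).1 (by linarith [hhb.2])
      have h3 : |10 * β' i| ≤ 6 * (-γ' i) := abs_le.2 ⟨by linarith, by linarith⟩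
      rw [abs_mul] at h3
      exact h3
    · have h1 := (hk i 0 i 10 0 0 0 (-6) 0 (cc 10 0 (by norm_num)) c0
        (cc (-6) 0 (by norm_num))).1 (by linarith [hha.1])
      have h2 := (hk i 0 i (-10) 0 0 0 (-6) 0 (cc (-10) 0 (by norm_num)) c0
        (cc (-6) 0 (by norm_num))).1 (by linarith [hha.2])
      have h3 : |10 * α' i| ≤ 6 * (-γ' i) := abs_le.2 ⟨by linarith, by linarith⟩
      rw [abs_mul] at h3
      exact h3
    · have h1 := (hk 0 j i 0 0 (11 * s) 0 10 0 c0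
        (cc (11 * s) 0 (by rw [abs_mul, hsabs]; norm_num)) (cc 10 0 (by norm_num))).1
        (by linarith)
      rw [hβ']
      linarith
    · have h1 := (hk 0 j 0 0 (-1) (4 * s) 0 0 0 (cc 0 (-1) (by norm_num))
        (cc (4 * s) 0 (by rw [abs_mul, hsabs]; norm_num)) c0).1 (by linarith)
      rw [hβ']
      linarith
    · intro k
      have hhal := abs_le.1 (h.hal k)
      rw [hβ] at hhal
      have h1 := (hk k j 0 1 0 (6 * s) 0 0 0 (cc 1 0 (by norm_num))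
        (cc (6 * s) 0 (by rw [abs_mul, hsabs]; norm_num)) c0).1 (by linarith [hhal.1])
      have h2 := (hk k j 0 (-1) 0 (6 * s) 0 0 0 (cc (-1) 0 (by norm_num))
        (cc (6 * s) 0 (by rw [abs_mul, hsabs]; norm_num)) c0).1 (by linarith [hhal.2])
      rw [hβ']
      exact abs_le.2 ⟨by linarith, by linarith⟩
    · have h1 := (hk 0 0 0 0 1 0 0 0 0 (cc 0 1 (by norm_num)) c0 c0).2 (by linarith [h.pos])
      linarith
  · intro k x t m hx ht hm
    unfold fm
    constructor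
    · intro h1
      have h2 := (hk k k k x 0 t 0 m 0 (by rw [abs_zero, add_zero]; exact hx)
        (by rw [abs_zero, add_zero]; exact ht) (by rw [abs_zero, add_zero]; exact hm)).2
        (by linarith)
      linarith
    · intro h1
      have h2 := (hk k k k (-x) 0 (-t) 0 (-m) 0 (by rw [abs_zero, add_zero, abs_neg]; exact hx)
        (by rw [abs_zero, add_zero, abs_neg]; exact ht)
        (by rw [abs_zero, add_zero, abs_neg]; exact hm)).2
        (by linarith)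
      linarith

end Pool.Agent.QDec
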