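import Pool.Agent.QDec.NF
import Pool.Agent.QDec.Transfer
import Pool.Agent.QDec.Pert
import Pool.Agent.QDec.MemIff
import Pool.Agent.QDec.Conv
import Pool.Agent.QDec.Sg
import Pool.Agent.QDec.Scale

/-!
# Quotients with Frobenius number at most `n` have generators bounded by a power of `n`

PROOF. If `1 ∈ S`, `S = univ`; take `A, B, C, p = 3, 4, 5, 3`. Otherwise `data_of_quotient` gives
integer forms (with `∑ α ≥ 1`), `exists_snf` a strict normal form `α, β, γ, i, j` with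
`x ∈ S ↔ Mem α β γ x` (`¬ Mem 1`). Put `N = 2 n + 2`, `L = 200 N` and
`α1 k = L α k + 1`, `β1 = L β`, `γ1 = L γ`. Then
(1) `RNF α1 β1 γ1 i j` (from `SNF`: e.g. `10 |L α_i + 1| ≤ 5 L c + 10 ≤ 6 L c`,
  `∑ α1 = L p + 3 ≤ 3 L h + 3 ≤ 4 L h`, `|α1 k| ≤ 5 L h + 1 ≤ 6 L h`);
(2) for `1 ≤ x ≤ N`, `x ∈ S`: `Mem α β γ x`, and `box` (for the RNF triple `L α, L β, L γ`, or for
  `α β γ`: SNF implies RNF, with `eb = eg = 0`, `Q = 3000`) gives `|t| ≤ 60 x`, `|m| ≤ 40 x` with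
  `fm α β γ k x t m ≥ 0`, so `fm α1 β1 γ1 k x t m = L fm + x ≥ 1`;
(3) for `1 ≤ x ≤ N`, `x ∉ S`, all `t m`: some `fm α β γ k x t m ≤ -1`, so
  `fm α1 β1 γ1 k x t m ≤ -L + x ≤ -1`.
`transfer` with `H = 60 N` gives small `α2 β2 γ2` in RNF, entries at most `R = 362880 (60 N)^9`,
with (2), (3) (all of `|x|, |t|, |m|` are `≤ 60 N`). `pert` with `B = N` gives `Q, eb, eg`;
`mem_iff` gives `Mem (Q α2) b g x ↔ x ∈ S` for `1 ≤ x ≤ N`; `conv` turns the left side into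
`x ∈ S' = {x | p x ∈ gen A B C}`, `A, B, C = cr b g 0, 1, 2`, `p = ∑ cr b g k (Q α2 k) > 0`.
`eq_of_agree` (with `S'` closed under addition; `0` is in both) gives `S' = S`.
Bounds: `N ≤ 4 n`, `R ≤ (1000 n)^9` (`362880 * 240^9 ≤ 10^27`), `Q ≤ 3000 N R^3`,
`A, B, C ≤ 3 Q^2 R^2`, `p ≤ 3 * (3 Q^2 R^2) * (Q R) = 9 Q^3 R^3 ≤ 9 (12000 n)^3 R^12`, and
`9 * 12000^3 n^3 ≤ (1000 n)^5`.
-/

namespace Pool.Agent.QDec

open Pool.Hhelper28.Quot

lemma univ_case {n : ℕ} (hn : 1 ≤ n) :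
    ∃ A B C p : ℕ, (A ≤ (1000 * n) ^ 113 ∧ B ≤ (1000 * n) ^ 113 ∧ C ≤ (1000 * n) ^ 113 ∧
      p ≤ (1000 * n) ^ 113) ∧ (0 < A ∧ 0 < B ∧ 0 < C ∧ 0 < p) ∧ (A ≠ B ∧ B ≠ C ∧ A ≠ C) ∧
      (A < 2 * B ∧ A < 2 * C ∧ B < 2 * A ∧ B < 2 * C ∧ C < 2 * A ∧ C < 2 * B) ∧
      (∃ r s t : ℤ, r * A + s * B + t * C = 1) ∧
      (Set.univ : Set ℕ) = {x | p * x ∈ gen A B C} := by
  have h1 : 5 ≤ (1000 * n) ^ 113 := by
    calc 5 ≤ 1000 * n := by omega
      _ = (1000 * n) ^ 1 := (pow_one _).symm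
      _ ≤ (1000 * n) ^ 113 := Nat.pow_le_pow_right (by omega) (by norm_num)
  refine ⟨3, 4, 5, 3, ⟨by omega, by omega, by omega, by omega⟩, by omega, by omega, by omega,
    ⟨-1, 1, 0, by norm_num⟩, ?_⟩
  ext x
  simp only [Set.mem_univ, true_iff]
  exact ⟨x, 0, 0, by ring⟩

/-- The numerical estimates. -/
lemma estimates {n : ℤ} (hn : 1 ≤ n) {N R Q : ℤ} (hN : N = 2 * n + 2)
    (hR : R = 362880 * (60 * N) ^ 9) (hQ0 : 0 ≤ Q) (hQ : Q ≤ 3000 * N * R ^ 3) :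
    3 * Q ^ 2 * R ^ 2 ≤ (1000 * n) ^ 113 ∧ 9 * Q ^ 3 * R ^ 3 ≤ (1000 * n) ^ 113 := by
  have hN0 : 0 ≤ N := by linarith
  have hN4 : N ≤ 4 * n := by linarith
  have hn0 : 0 ≤ n := by linarith
  have hR0 : 0 ≤ R := by rw [hR]; positivity
  have hR1 : R ≤ (1000 * n) ^ 9 := by
    calc R = 362880 * (60 * N) ^ 9 := hR
      _ ≤ 362880 * (60 * (4 * n)) ^ 9 := by gcongr
      _ = (362880 * 240 ^ 9) * n ^ 9 := by ring
      _ ≤ 1000 ^ 9 * n ^ 9 := by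
          apply mul_le_mul_of_nonneg_right _ (by positivity)
          norm_num
      _ = (1000 * n) ^ 9 := by ring
  set X : ℤ := 1000 * n with hX
  have hX1 : 1 ≤ X := by linarith
  have hX0 : 0 ≤ X := by linarith
  have hQ1 : Q ≤ 12000 * n * X ^ 27 := by
    calc Q ≤ 3000 * N * R ^ 3 := hQ
      _ ≤ 3000 * (4 * n) * (X ^ 9) ^ 3 := by gcongr
      _ = 12000 * n * X ^ 27 := by ring
  have hQ2 : Q ≤ 12 * X ^ 28 := by
    calc Q ≤ 12000 * n * X ^ 27 := hQ1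
      _ = 12 * (1000 * n) * X ^ 27 := by ring
      _ = 12 * X ^ 28 := by rw [← hX]; ring
  constructor
  · calc 3 * Q ^ 2 * R ^ 2 ≤ 3 * (12 * X ^ 28) ^ 2 * (X ^ 9) ^ 2 := by gcongr
      _ = 432 * X ^ 74 := by ring
      _ ≤ X ^ 1 * X ^ 74 := by
          apply mul_le_mul_of_nonneg_right _ (by positivity)
          rw [pow_one]
          linarith
      _ = X ^ 75 := by ring
      _ ≤ X ^ 113 := pow_le_pow_right₀ hX1 (by norm_num)
  · calc 9 * Q ^ 3 * R ^ 3 ≤ 9 * (12 * X ^ 28) ^ 3 * (X ^ 9) ^ 3 := by gcongr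
      _ = 15552 * X ^ 111 := by ring
      _ ≤ X ^ 2 * X ^ 111 := by
          apply mul_le_mul_of_nonneg_right _ (by positivity)
          have : (1000 : ℤ) ^ 2 ≤ X ^ 2 := by
            apply pow_le_pow_left₀ (by norm_num)
            linarith
          linarith
      _ = X ^ 113 := by ring

theorem bounded {n : ℕ} (hn : 1 ≤ n) {S : Set ℕ} (hS : IsNS S) (hSn : ∀ x, n < x → x ∈ S)
    (hq : IsQ3 S) :
    ∃ A B C p : ℕ, (A ≤ (1000 * n) ^ 113 ∧ B ≤ (1000 * n) ^ 113 ∧ C ≤ (1000 * n) ^ 113 ∧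
      p ≤ (1000 * n) ^ 113) ∧ (0 < A ∧ 0 < B ∧ 0 < C ∧ 0 < p) ∧ (A ≠ B ∧ B ≠ C ∧ A ≠ C) ∧
      (A < 2 * B ∧ A < 2 * C ∧ B < 2 * A ∧ B < 2 * C ∧ C < 2 * A ∧ C < 2 * B) ∧
      (∃ r s t : ℤ, r * A + s * B + t * C = 1) ∧ S = {x | p * x ∈ gen A B C} := by
  by_cases h1 : (1 : ℕ) ∈ S
  · have hu : S = Set.univ := by
      ext x
      simp only [Set.mem_univ, iff_true]
      induction x with
      | zero => exact hS.1
      | succ x ih => exact hS.2.1 x ih 1 h1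
    rw [hu]
    exact univ_case hn
  obtain ⟨α0, β0, γ0, hα0, hβ0, hγ0, hδ0, hmem0⟩ := data_of_quotient hq
  have h1' : ¬ Mem α0 β0 γ0 1 := by
    intro h
    apply h1
    rw [hmem0]
    exact_mod_cast h
  obtain ⟨α, β, γ, i, j, hSNF, hM⟩ := exists_snf α0 β0 γ0 hβ0 hγ0 hδ0 (by linarith) h1'
  have hmem : ∀ x : ℕ, x ∈ S ↔ Mem α β γ x := fun x => (hmem0 x).trans (hM x).symm
  have hnz : (1 : ℤ) ≤ n := by exact_mod_cast hn
  set N : ℤ := 2 * n + 2 with hN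
  have hN1 : 1 ≤ N := by linarith
  set L : ℤ := 200 * N with hL
  have hL10 : 10 ≤ L := by linarith
  have hRNF := rnf_scale hSNF hL10
  -- signs
  have hW0 : ∀ x : ℕ, 1 ≤ x → (x : ℤ) ≤ N → x ∈ S → ∃ t m : ℤ, |t| ≤ 60 * x ∧ |m| ≤ 40 * x ∧
      ∀ k, 1 ≤ fm (fun k => L * α k + 1) (fun k => L * β k) (fun k => L * γ k) k x t m := by
    intro x hx hxN hxS
    have hx0 : (0 : ℤ) < x := by exact_mod_cast hx
    obtain ⟨t, m, ht, hm, hf⟩ := witness hSNF hx0 ((hmem x).1 hxS)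
    refine ⟨t, m, ht, hm, fun k => ?_⟩
    rw [fm_scale]
    have h2 := mul_nonneg (show (0 : ℤ) ≤ L by linarith) (hf k)
    linarith
  have hV0 : ∀ x : ℕ, 1 ≤ x → (x : ℤ) ≤ N → x ∉ S → ∀ t m : ℤ,
      ∃ k, fm (fun k => L * α k + 1) (fun k => L * β k) (fun k => L * γ k) k x t m ≤ -1 := by
    intro x hx hxN hxS t m
    have h2 : ¬ Mem α β γ x := fun h => hxS ((hmem x).2 h)
    have h3 : ∃ k, fm α β γ k x t m ≤ -1 := by
      by_contra hcon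
      rw [not_exists] at hcon
      apply h2
      refine ⟨t, m, fun k => ?_⟩
      have h4 := hcon k
      unfold fm at h4
      linarith [not_le.1 h4]
    obtain ⟨k, hk⟩ := h3
    refine ⟨k, ?_⟩
    rw [fm_scale]
    have h4 := mul_le_mul_of_nonneg_left hk (show (0 : ℤ) ≤ L by linarith)
    linarith
  -- small forms
  obtain ⟨α2, β2, γ2, hRNF2, hb2, hs2⟩ := transfer _ _ _ i j hRNF (60 * N) (by linarith)
  set R : ℤ := 362880 * (60 * N) ^ 9 with hR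
  have hxb : ∀ x : ℕ, (x : ℤ) ≤ N → |(x : ℤ)| ≤ 60 * N := by
    intro x hx
    rw [abs_of_nonneg (by positivity)]
    linarith
  have hW : ∀ x : ℕ, 1 ≤ x → (x : ℤ) ≤ N → x ∈ S → ∃ t m : ℤ, |t| ≤ 60 * x ∧ |m| ≤ 40 * x ∧
      ∀ k, 1 ≤ fm α2 β2 γ2 k x t m := by
    intro x hx hxN hxS
    obtain ⟨t, m, ht, hm, hf⟩ := hW0 x hx hxN hxS
    exact ⟨t, m, ht, hm, fun k => (hs2 k x t m (hxb x hxN) (by linarith) (by linarith)).1 (hf k)⟩
  have hV : ∀ x : ℕ, 1 ≤ x → (x : ℤ) ≤ N → x ∉ S → ∀ t m : ℤ, |t| ≤ 60 * x → |m| ≤ 40 * x →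
      ∃ k, fm α2 β2 γ2 k x t m ≤ -1 := by
    intro x hx hxN hxS t m ht hm
    obtain ⟨k, hk⟩ := hV0 x hx hxN hxS t m
    exact ⟨k, (hs2 k x t m (hxb x hxN) (by linarith) (by linarith)).2 hk⟩
  obtain ⟨Q, eb, eg, heb, heg, hegi, hegk, hQ1, hQ2, hpos, hlt, hne, hub, ⟨r, hr⟩, hp⟩ :=
    pert hRNF2 (R := R) hb2 hN1
  have hQ0 : 0 < Q := by linarith
  have hiff := mem_iff hRNF2 hN1 S hW hV heb heg hegi hegk hQ1
  set b := pv Q β2 eb with hb
  set g := pv Q γ2 eg with hg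
  obtain ⟨A, hA⟩ := Int.eq_ofNat_of_zero_le (hpos 0).le
  obtain ⟨B, hB⟩ := Int.eq_ofNat_of_zero_le (hpos 1).le
  obtain ⟨C, hC⟩ := Int.eq_ofNat_of_zero_le (hpos 2).le
  obtain ⟨p, hp'⟩ := Int.eq_ofNat_of_zero_le hp.le
  have hconv := conv (fun k => Q * α2 k) b g r hr hA.symm hB.symm hC.symm hp'.symm
  obtain ⟨e1, e2⟩ := estimates hnz hN hR hQ0.le hQ2
  have hR0 : 0 ≤ R := by rw [hR]; positivity
  have hpub : (p : ℤ) ≤ 9 * Q ^ 3 * R ^ 3 := by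
    rw [← hp']
    have h2 : ∀ k, cr b g k * (Q * α2 k) ≤ 3 * Q ^ 2 * R ^ 2 * (Q * R) := by
      intro k
      have h3 : Q * α2 k ≤ Q * R := by
        apply mul_le_mul_of_nonneg_left _ hQ0.le
        exact (le_abs_self _).trans (hb2 k).1
      calc cr b g k * (Q * α2 k) ≤ cr b g k * (Q * R) :=
            mul_le_mul_of_nonneg_left h3 (hpos k).le
        _ ≤ 3 * Q ^ 2 * R ^ 2 * (Q * R) :=
            mul_le_mul_of_nonneg_right (hub k) (by positivity)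
    calc ∑ k, cr b g k * (Q * α2 k) ≤ ∑ k : Fin 3, 3 * Q ^ 2 * R ^ 2 * (Q * R) :=
          Finset.sum_le_sum (fun k _ => h2 k)
      _ = 9 * Q ^ 3 * R ^ 3 := by
          rw [Finset.sum_const, Finset.card_univ, Fintype.card_fin, nsmul_eq_mul]
          push_cast
          ring
  have hAz : ((A : ℕ) : ℤ) = cr b g 0 := hA.symm
  have hBz : ((B : ℕ) : ℤ) = cr b g 1 := hB.symm
  have hCz : ((C : ℕ) : ℤ) = cr b g 2 := hC.symm
  have hpz : ((p : ℕ) : ℤ) = ∑ k, cr b g k * (Q * α2 k) := hp'.symm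
  refine ⟨A, B, C, p, ⟨?_, ?_, ?_, ?_⟩, ⟨?_, ?_, ?_, ?_⟩, ⟨?_, ?_, ?_⟩, ⟨?_, ?_, ?_, ?_, ?_, ?_⟩,
    ⟨r 0, r 1, r 2, ?_⟩, ?_⟩
  · have h2 := (hub 0).trans e1
    rw [← hAz] at h2
    exact_mod_cast h2
  · have h2 := (hub 1).trans e1
    rw [← hBz] at h2
    exact_mod_cast h2
  · have h2 := (hub 2).trans e1
    rw [← hCz] at h2
    exact_mod_cast h2
  · have h2 := hpub.trans e2
    exact_mod_cast h2
  · have h2 := hpos 0
    rw [← hAz] at h2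
    exact_mod_cast h2
  · have h2 := hpos 1
    rw [← hBz] at h2
    exact_mod_cast h2
  · have h2 := hpos 2
    rw [← hCz] at h2
    exact_mod_cast h2
  · have h2 := hp
    rw [← hpz] at h2
    exact_mod_cast h2
  · have h2 := hne 0 1 (by decide)
    rw [← hAz, ← hBz] at h2
    exact_mod_cast h2
  · have h2 := hne 1 2 (by decide)
    rw [← hBz, ← hCz] at h2
    exact_mod_cast h2
  · have h2 := hne 0 2 (by decide)
    rw [← hAz, ← hCz] at h2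
    exact_mod_cast h2
  · have h2 := hlt 0 1
    rw [← hAz, ← hBz] at h2
    exact_mod_cast h2
  · have h2 := hlt 0 2
    rw [← hAz, ← hCz] at h2
    exact_mod_cast h2
  · have h2 := hlt 1 0
    rw [← hAz, ← hBz] at h2
    exact_mod_cast h2
  · have h2 := hlt 1 2
    rw [← hBz, ← hCz] at h2
    exact_mod_cast h2
  · have h2 := hlt 2 0
    rw [← hAz, ← hCz] at h2
    exact_mod_cast h2
  · have h2 := hlt 2 1
    rw [← hBz, ← hCz] at h2
    exact_mod_cast h2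
  · rw [hAz, hBz, hCz]
    rw [Fin.sum_univ_three] at hr
    exact hr
  · symm
    apply eq_of_agree (n := n)
    · rintro x ⟨u, v, w, h2⟩ y ⟨u', v', w', h3⟩
      refine ⟨u + u', v + v', w + w', ?_⟩
      rw [mul_add, h2, h3]
      ring
    · exact hSn
    · intro x hx
      rcases Nat.eq_zero_or_pos x with h0 | h0
      · subst h0
        constructor
        · intro _
          exact hS.1
        · intro _
          exact ⟨0, 0, 0, by simp⟩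
      · have hxN : (x : ℤ) ≤ N := by
          rw [hN]
          exact_mod_cast hx
        rw [← hiff x h0 hxN, hconv x]
        rfl

end Pool.Agent.QDec
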