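import Pool.Agent.QDec.Def

/-!
# Every triangle has a strict normal form

PROOF. `exists_reduced` gives `β1, γ1, g, h` with `Red β1 γ1 g h` and the same `Mem`.
`exists_centre` gives `k, l` such that `α1 = α + k β1 + l γ1` has `|3 α1 i - p| ≤ 3 h`,
`p = ∑ α = ∑ α1` (as in the proof of `reduce` in Hhelper28/Quot/Reduce.lean: copy these steps);
`Mem` is unchanged by `mem_trans`. If `p ≥ 3 h` then all `α1 i ≥ 0`, so `(0,0)` shows
`Mem α β γ 1`, excluded; so `p < 3 h` and `|α1 i| ≤ 2 h` (as `p ≥ 1 > -3h`).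
`γ1 ≠ 0`; `sign_cases` gives `i` with `γ1 i < 0` and `γ1 j ≥ 0` for `j ≠ i`, or the same for `-γ1`:
replacing `m` by `-m` (`mem_neg`) assume the first. Put `c = -γ1 i > 0`; as `∑ γ1 = 0`,
`|γ1 k| ≤ c` for all `k`, and `c ≤ g ≤ h`. SHEAR: let `n, l` be integers with
`2 |β1 i - n c| ≤ c`, `2 |α1 i - l c| ≤ c` (round(β1 i / c), round (α1 i / c); or use Int.emod and a
case distinction), `β2 = β1 + n γ1`, `α2 = α1 + l γ1`. `Mem` is unchanged (see the step hmem4 in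
`reduce`). `|l| c ≤ |α1 i| + c / 2 ≤ 2 h + h/2`, so `|α2 k| ≤ |α1 k| + |l| |γ1 k| ≤ 5 h`.
Let `j` be an index where `|β2 j|` is maximal; `|β2 j| = nu β1 γ1 1 n ≥ h` (last part of `Red`:
`nu β γ 1 n = max_i |β i + n γ i|`; careful with `γ1` replaced by `-γ1`: then use `-n`).
`j ≠ i`, because `2 |β2 i| ≤ c ≤ h ≤ |β2 j|` and `h > 0`. So `c ≤ h ≤ |β2 j|`, `p ≤ 3 |β2 j|`,
`|α2 k| ≤ 5 |β2 j|`. ORIENTATION: `j = i + 1` or `j = i + 2` (in `Fin 3`); `β2 j ≠ 0`; if the sign of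
`β2 j` is not the one required by `ori`, replace `β2` by `-β2` (this is `t → -t`; `Mem` unchanged).
-/

namespace Pool.Agent.QDec

open Pool.Hhelper28.Quot

private lemma NF_round (b c : ℤ) (hc : 0 < c) : ∃ n : ℤ, 2 * |b - n * c| ≤ c := by
  have h1 := Int.emod_add_mul_ediv b c
  have h2 := Int.emod_nonneg b hc.ne'
  have h3 := Int.emod_lt_of_pos b hc
  rcases le_or_gt (2 * (b % c)) c with h | h
  · refine ⟨b / c, ?_⟩
    have e : b - b / c * c = b % c := by linarith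
    rw [e, abs_of_nonneg h2]
    exact h
  · refine ⟨b / c + 1, ?_⟩
    have e : b - (b / c + 1) * c = -(c - b % c) := by linarith
    rw [e, abs_neg, abs_of_pos (by linarith)]
    linarith

private lemma NF_mem_negb (α β γ : Fin 3 → ℤ) (x : ℤ) :
    Mem α (fun i => -β i) γ x ↔ Mem α β γ x := by
  constructor
  · rintro ⟨t, m, h⟩
    refine ⟨-t, m, fun i => ?_⟩
    have := h i
    linarith
  · rintro ⟨t, m, h⟩
    refine ⟨-t, m, fun i => ?_⟩
    have := h i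
    linarith

private lemma NF_other (i j : Fin 3) (h : j ≠ i) : j = i + 1 ∨ j = i + 2 := by
  revert i j
  decide

private lemma NF_max (β γ : Fin 3 → ℤ) (n : ℤ) : ∃ i, (nu β γ 1 n : ℤ) = |β i + n * γ i| := by
  obtain ⟨i, _, hi⟩ := Finset.exists_mem_eq_sup Finset.univ Finset.univ_nonempty
    (fun i => (β i * 1 + γ i * n).natAbs)
  refine ⟨i, ?_⟩
  have e : β i + n * γ i = β i * 1 + γ i * n := by ring
  rw [e, Int.abs_eq_natAbs]
  unfold nu
  rw [hi]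

private lemma NF_gle (γ : Fin 3 → ℤ) (i : Fin 3) (hs : ∑ k, γ k = 0)
    (h : ∀ j, j ≠ i → 0 ≤ γ j) (hi : γ i < 0) (k : Fin 3) : |γ k| ≤ -γ i := by
  by_cases hk : k = i
  · rw [hk, abs_of_neg hi]
  · rw [abs_of_nonneg (h k hk)]
    have h1 : γ i + γ k ≤ ∑ k, γ k := by
      have h2 : ∑ j ∈ ({i, k} : Finset (Fin 3)), γ j ≤ ∑ j, γ j := by
        apply Finset.sum_le_sum_of_subset_of_nonneg (Finset.subset_univ _)
        intro j _ hj
        apply h j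
        rintro rfl
        simp at hj
      rwa [Finset.sum_pair (fun h => hk h.symm)] at h2
    rw [hs] at h1
    linarith

theorem exists_snf (α β γ : Fin 3 → ℤ) (hβ : ∑ i, β i = 0) (hγ : ∑ i, γ i = 0)
    (hδ : β 0 * γ 1 - β 1 * γ 0 ≠ 0) (hp : 1 ≤ ∑ i, α i) (h1 : ¬ Mem α β γ 1) :
    ∃ (α' β' γ' : Fin 3 → ℤ) (i j : Fin 3), SNF α' β' γ' i j ∧
      ∀ x, Mem α' β' γ' x ↔ Mem α β γ x := by
  obtain ⟨β1, γ1, g, h, hβ1, hγ1, hδ1, hR, hmem1⟩ := exists_reduced α β γ hβ hγ hδ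
  obtain ⟨k, l, hkl⟩ := exists_centre α β1 γ1 hβ1 hγ1 hδ1 hR
  set α1 : Fin 3 → ℤ := fun i => α i + k * β1 i + l * γ1 i with hα1
  have hsα1 : ∑ i, α1 i = ∑ i, α i := by
    rw [hα1, Finset.sum_add_distrib, Finset.sum_add_distrib, ← Finset.mul_sum, ← Finset.mul_sum,
      hβ1, hγ1]
    ring
  have hmem2 : ∀ x, Mem α1 β1 γ1 x ↔ Mem α β γ x := fun x =>
    (mem_trans α β1 γ1 k l x).trans (hmem1 x)
  have hc : ∀ i, |3 * α1 i - ∑ j, α1 j| ≤ 3 * h := by
    intro i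
    rw [hsα1]
    exact hkl i
  have hp3 : ∑ j, α1 j < 3 * h := by
    by_contra hcon
    rw [not_lt] at hcon
    apply h1
    rw [← hmem2]
    refine ⟨0, 0, fun i => ?_⟩
    have := (abs_le.1 (hc i)).1
    linarith
  have hp1 : 1 ≤ ∑ j, α1 j := by rw [hsα1]; exact hp
  have ha1 : ∀ i, |α1 i| ≤ 2 * h := by
    intro i
    have := abs_le.1 (hc i)
    rw [abs_le]
    constructor
    · linarith
    · linarith
  -- sign structure
  have hne : ∃ i, γ1 i ≠ 0 := by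
    by_contra hcon
    rw [not_exists] at hcon
    apply hδ1
    have a := not_not.1 (hcon 0)
    have b := not_not.1 (hcon 1)
    rw [a, b]
    ring
  obtain ⟨hR1, hR2, hR3, hR4, hR5⟩ := hR
  obtain ⟨i0, hi0⟩ := sign_cases γ1 hγ1 hne
  obtain ⟨γ2, hγ2, hs0, hs1, hg2, hmem3, hnu⟩ : ∃ γ2 : Fin 3 → ℤ, ∑ i, γ2 i = 0 ∧
      γ2 i0 < 0 ∧ (∀ j, j ≠ i0 → 0 ≤ γ2 j) ∧ (∀ i, |γ2 i| ≤ g) ∧
      (∀ x, Mem α1 β1 γ2 x ↔ Mem α β γ x) ∧ ∀ n : ℤ, h ≤ nu β1 γ2 1 n := by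
    rcases hi0 with ⟨a, b⟩ | ⟨a, b⟩
    · exact ⟨γ1, hγ1, a, b, hR2, hmem2, hR5⟩
    · refine ⟨fun i => -γ1 i, ?_, a, b, ?_, fun x => (mem_neg α1 β1 γ1 x).trans (hmem2 x), ?_⟩
      · rw [Finset.sum_neg_distrib, hγ1, neg_zero]
      · intro i
        rw [abs_neg]
        exact hR2 i
      · intro n
        have e : nu β1 (fun i => -γ1 i) 1 n = nu β1 γ1 1 (-n) := by
          unfold nu
          congr 1
          funext i
          congr 1
          ring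
        rw [e]
        exact hR5 (-n)
  obtain ⟨c, hcdef⟩ : ∃ c, c = -γ2 i0 := ⟨_, rfl⟩
  have hcpos : 0 < c := by rw [hcdef]; linarith
  have hgi : γ2 i0 = -c := by rw [hcdef]; ring
  have hgc : ∀ k, |γ2 k| ≤ c := fun k => by
    rw [hcdef]
    exact NF_gle γ2 i0 hγ2 hs1 hs0 k
  have hh : (0 : ℤ) < h := by exact_mod_cast lt_of_lt_of_le hR4 hR3
  have hch : c ≤ h := by
    have h2 := hg2 i0
    rw [hgi, abs_neg, abs_of_pos hcpos] at h2
    have h3 : (g : ℤ) ≤ h := by exact_mod_cast hR3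
    linarith
  obtain ⟨n, hn⟩ := NF_round (β1 i0) c hcpos
  obtain ⟨l2, hl2⟩ := NF_round (α1 i0) c hcpos
  set β2 : Fin 3 → ℤ := fun i => β1 i + n * γ2 i with hβ2
  set α2 : Fin 3 → ℤ := fun i => α1 i + l2 * γ2 i with hα2
  have hsα2 : ∑ i, α2 i = ∑ i, α1 i := by
    rw [hα2, Finset.sum_add_distrib, ← Finset.mul_sum, hγ2]
    ring
  have hsβ2 : ∑ i, β2 i = 0 := by
    rw [hβ2, Finset.sum_add_distrib, ← Finset.mul_sum, hβ1, hγ2]
    ring
  have hb0 : 2 * |β2 i0| ≤ c := by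
    have e : β2 i0 = β1 i0 - n * c := by
      rw [hβ2]
      simp only
      rw [hgi]
      ring
    rw [e]
    exact hn
  have ha0 : 2 * |α2 i0| ≤ c := by
    have e : α2 i0 = α1 i0 - l2 * c := by
      rw [hα2]
      simp only
      rw [hgi]
      ring
    rw [e]
    exact hl2
  have hshift : ∀ x t m : ℤ, ∀ i, α2 i * x + β2 i * t + γ2 i * m =
      α1 i * x + β1 i * t + γ2 i * (m + l2 * x + n * t) := by
    intro x t m i
    rw [hα2, hβ2]
    ring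
  have hmem4 : ∀ x, Mem α2 β2 γ2 x ↔ Mem α β γ x := by
    intro x
    rw [← hmem3]
    constructor
    · rintro ⟨t, m, hf⟩
      refine ⟨t, m + l2 * x + n * t, fun i => ?_⟩
      rw [← hshift]
      exact hf i
    · rintro ⟨t, m, hf⟩
      refine ⟨t, m - l2 * x - n * t, fun i => ?_⟩
      rw [hshift]
      have e : m - l2 * x - n * t + l2 * x + n * t = m := by ring
      rw [e]
      exact hf i
  have hl2c : 2 * (|l2| * c) ≤ 5 * h := by
    have h2 : |l2| * c = |l2 * c| := by rw [abs_mul, abs_of_pos hcpos]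
    have h3 : |l2 * c| ≤ |α1 i0| + |α1 i0 - l2 * c| := by
      have e : l2 * c = α1 i0 - (α1 i0 - l2 * c) := by ring
      calc |l2 * c| = |α1 i0 - (α1 i0 - l2 * c)| := by rw [← e]
        _ ≤ _ := abs_sub _ _
    have h4 := ha1 i0
    rw [h2]
    linarith
  have hal : ∀ k, |α2 k| ≤ 5 * h := by
    intro k
    have h2 : |α2 k| ≤ |α1 k| + |l2| * |γ2 k| := by
      rw [hα2, ← abs_mul]
      exact abs_add_le _ _
    have h3 := mul_le_mul_of_nonneg_left (hgc k) (abs_nonneg l2)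
    have h4 := ha1 k
    linarith
  obtain ⟨j, hj⟩ := NF_max β1 γ2 n
  have hjh : (h : ℤ) ≤ |β2 j| := by
    have h2 : (h : ℤ) ≤ nu β1 γ2 1 n := by exact_mod_cast hnu n
    rw [hj] at h2
    exact h2
  have hji : j ≠ i0 := by
    rintro rfl
    linarith
  have hkey : ∀ β3 : Fin 3 → ℤ, (∀ k, |β3 k| = |β2 k|) → ∑ k, β3 k = 0 →
      ((j = i0 + 1 ∧ 0 < β3 j) ∨ (j = i0 + 2 ∧ β3 j < 0)) → SNF α2 β3 γ2 i0 j := by
    intro β3 h3 hs3 hori
    refine ⟨hs3, hγ2, by linarith, hs1, ?_, ?_, ?_, ?_, ?_, ?_, hori⟩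
    · rw [h3, ← hcdef]
      exact hb0
    · rw [← hcdef]
      exact ha0
    · rw [h3, ← hcdef]
      linarith
    · rw [h3, hsα2]
      linarith
    · intro k
      rw [h3 j]
      have := hal k
      linarith
    · rw [hsα2]
      exact hp1
  have hne0 : β2 j ≠ 0 := by
    intro h0
    rw [h0, abs_zero] at hjh
    linarith
  by_cases hori : (j = i0 + 1 ∧ 0 < β2 j) ∨ (j = i0 + 2 ∧ β2 j < 0)
  · exact ⟨α2, β2, γ2, i0, j, hkey β2 (fun _ => rfl) hsβ2 hori, hmem4⟩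
  · refine ⟨α2, fun k => -β2 k, γ2, i0, j, hkey _ (fun k => abs_neg _) ?_ ?_, fun x =>
      (NF_mem_negb α2 β2 γ2 x).trans (hmem4 x)⟩
    · rw [Finset.sum_neg_distrib, hsβ2, neg_zero]
    · rcases NF_other i0 j hji with h2 | h2
      · left
        refine ⟨h2, ?_⟩
        have h3 : ¬ 0 < β2 j := fun h4 => hori (Or.inl ⟨h2, h4⟩)
        have h4 : β2 j < 0 := lt_of_le_of_ne (not_lt.1 h3) hne0
        linarith
      · right
        refine ⟨h2, ?_⟩
        have h3 : ¬ β2 j < 0 := fun h4 => hori (Or.inr ⟨h2, h4⟩)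
        have h4 : 0 < β2 j := lt_of_le_of_ne (not_lt.1 h3) hne0.symm
        linarith

end Pool.Agent.QDec
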