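import Pool.Agent.QDec.Main

/-!
# A primitive recursive decision procedure

A numerical semigroup is given by the list `G` of its gaps (any list with these members).
PROOF. Put `n = n(G) = G.sum + 1` (all members of `G` are `≤ n`), `M = (1000 n)^113 + 1`. Let
`P(G)` be: `0 ∉ G`, and for all `x, y < n + 1`: `x ∉ G → y ∉ G → x + y ∉ G`, and there are
`A, B, C, p < M`, all positive, pairwise distinct, each less than twice each other one,
`Nat.gcd (Nat.gcd A B) C = 1`, such that for all `x < 2 n + 3`: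
`x ∉ G ↔ ∃ u < p x + 1, ∃ v < p x + 1, ∃ w < p x + 1, p x = A u + B v + C w`.
`P` is `PrimrecPred` (bounded quantifiers: `PrimrecRel.exists_lt`, `PrimrecRel.forall_lt`, ... in
Mathlib/Computability/Primrec/List; membership in a list; `Primrec` arithmetic).
EQUIVALENCE with the predicate of the theorem: `S` is the complement of `G`.
`→`: `IsNS S`, `Emb3` quotient, so `IsQ3 S` (`D.card = 3 ≤ 3`); `bounded` with this `n` gives
`A, B, C, p` (the Bezout relation gives the gcd) and the criterion (`u, v, w ≤ p x` as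
`A, B, C ≥ 1`). `←`: `S` is closed under addition (if `x > n` or `y > n` then `x + y > n`), cofinite,
and `{x | p x ∈ gen A B C}` agrees with it up to `2 n + 2`, so they are equal by `eq_of_agree`;
`gen_isNS`, `emb3`.
-/

namespace Pool.Agent.QDec

open Pool.Hhelper28.Quot

/-- `S = T / p` with `T` a numerical semigroup of embedding dimension three. -/
def IsQE (S : Set ℕ) : Prop :=
  ∃ (T : Set ℕ) (p : ℕ), IsNS T ∧ Emb3 T ∧ 1 ≤ p ∧ S = {x | p * x ∈ T}

theorem isQ3_of_isQE {S : Set ℕ} (h : IsQE S) : IsQ3 S := by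
  obtain ⟨T, p, hT, ⟨D, hD, hDT, -⟩, hp, hS⟩ := h
  exact ⟨T, D, p, hT, hD.le, hDT, hp, hS⟩

theorem isQE_of_data {S : Set ℕ} {A B C p : ℕ} (h0 : 0 < A ∧ 0 < B ∧ 0 < C ∧ 0 < p)
    (h1 : A ≠ B ∧ B ≠ C ∧ A ≠ C)
    (h2 : A < 2 * B ∧ A < 2 * C ∧ B < 2 * A ∧ B < 2 * C ∧ C < 2 * A ∧ C < 2 * B)
    (h3 : ∃ r s t : ℤ, r * A + s * B + t * C = 1) (hS : S = {x | p * x ∈ gen A B C}) :
    IsQE S := by
  obtain ⟨r, s, t, h3⟩ := h3
  exact ⟨gen A B C, p, gen_isNS h3, emb3 ⟨h0.1, h0.2.1, h0.2.2.1⟩ h1 h2, h0.2.2.2, hS⟩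

/-! ### closure of primitive recursive predicates -/

section closure

variable {α : Type} [Primcodable α]

private lemma pr_bex {f : α → ℕ} {p : α → ℕ → Prop} (hf : Primrec f)
    (hp : PrimrecPred fun z : α × ℕ => p z.1 z.2) : PrimrecPred fun a => ∃ x < f a, p a x := by
  have hR : PrimrecRel fun (x : ℕ) (a : α) => p a x :=
    hp.comp (Primrec.pair Primrec.snd Primrec.fst)
  have h1 := hR.exists_mem_list.comp (Primrec.list_range.comp hf) (Primrec.id (α := α))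
  refine h1.of_eq fun a => ?_
  simp

private lemma pr_ball {f : α → ℕ} {p : α → ℕ → Prop} (hf : Primrec f)
    (hp : PrimrecPred fun z : α × ℕ => p z.1 z.2) : PrimrecPred fun a => ∀ x < f a, p a x := by
  have hR : PrimrecRel fun (x : ℕ) (a : α) => p a x :=
    hp.comp (Primrec.pair Primrec.snd Primrec.fst)
  have h1 := hR.forall_mem_list.comp (Primrec.list_range.comp hf) (Primrec.id (α := α))
  refine h1.of_eq fun a => ?_
  simp

private lemma pr_imp {p q : α → Prop} (hp : PrimrecPred p) (hq : PrimrecPred q) :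
    PrimrecPred fun a => p a → q a :=
  (hp.not.or hq).of_eq fun _ => imp_iff_not_or.symm

private lemma pr_iff {p q : α → Prop} (hp : PrimrecPred p) (hq : PrimrecPred q) :
    PrimrecPred fun a => (p a ↔ q a) :=
  ((pr_imp hp hq).and (pr_imp hq hp)).of_eq fun _ => iff_def.symm

private lemma pr_mem {f : α → ℕ} {g : α → List ℕ} (hf : Primrec f) (hg : Primrec g) :
    PrimrecPred fun a => f a ∈ g a := by
  have hR : PrimrecRel fun (a b : ℕ) => a = b := Primrec.eq
  refine (hR.exists_mem_list.comp hg hf).of_eq fun a => ?_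
  simp

private lemma pr_add {f g : α → ℕ} (hf : Primrec f) (hg : Primrec g) :
    Primrec fun a => f a + g a := Primrec.nat_add.comp hf hg

private lemma pr_mul {f g : α → ℕ} (hf : Primrec f) (hg : Primrec g) :
    Primrec fun a => f a * g a := Primrec.nat_mul.comp hf hg

private lemma pr_pow {f : α → ℕ} (hf : Primrec f) (k : ℕ) : Primrec fun a => f a ^ k := by
  induction k with
  | zero => simpa using Primrec.const 1
  | succ k ih =>
    have h := pr_mul ih hf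
    simpa [pow_succ] using h

end closure

/-- one more than the sum of the gaps -/
private def nn (G : List ℕ) : ℕ := G.sum + 1

private lemma pr_nn : Primrec nn := by
  have h : Primrec fun G : List ℕ => G.foldr (fun b s => b + s) 0 :=
    Primrec.list_foldr (f := fun G : List ℕ => G) (g := fun _ => 0)
      (h := fun _ (p : ℕ × ℕ) => p.1 + p.2) Primrec.id (Primrec.const 0)
      (Primrec.to₂ (Primrec.nat_add.comp (Primrec.fst.comp Primrec.snd)
        (Primrec.snd.comp Primrec.snd)))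
  exact Primrec.nat_add.comp h (Primrec.const 1)

private lemma le_nn {G : List ℕ} {x : ℕ} (h : x ∈ G) : x < nn G := by
  have h1 : x ≤ G.sum := List.le_sum_of_mem h
  unfold nn
  omega

/-- the quadruple `(A, B, C, p)` -/
private abbrev Qd := ℕ × ℕ × ℕ × ℕ

private def Kp (q : Qd) (x : ℕ) : Prop :=
  ∃ u < q.2.2.2 * x + 1, ∃ v < q.2.2.2 * x + 1, ∃ w < q.2.2.2 * x + 1,
    q.2.2.2 * x = q.1 * u + q.2.1 * v + q.2.2.1 * w

private lemma pr_Kp : PrimrecPred fun z : Qd × ℕ => Kp z.1 z.2 := by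
  unfold Kp
  have b1 : Primrec fun z : Qd × ℕ => z.1.2.2.2 * z.2 + 1 :=
    pr_add (pr_mul (Primrec.snd.comp (Primrec.snd.comp (Primrec.snd.comp Primrec.fst)))
      Primrec.snd) (Primrec.const 1)
  have b2 : Primrec fun z : (Qd × ℕ) × ℕ => z.1.1.2.2.2 * z.1.2 + 1 := b1.comp Primrec.fst
  have b3 : Primrec fun z : ((Qd × ℕ) × ℕ) × ℕ => z.1.1.1.2.2.2 * z.1.1.2 + 1 :=
    b2.comp Primrec.fst
  refine pr_bex b1 (pr_bex b2 (pr_bex b3 ?_))
  have q : Primrec fun z : (((Qd × ℕ) × ℕ) × ℕ) × ℕ => z.1.1.1.1 :=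
    Primrec.fst.comp (Primrec.fst.comp (Primrec.fst.comp Primrec.fst))
  have x : Primrec fun z : (((Qd × ℕ) × ℕ) × ℕ) × ℕ => z.1.1.1.2 :=
    Primrec.snd.comp (Primrec.fst.comp (Primrec.fst.comp Primrec.fst))
  have u : Primrec fun z : (((Qd × ℕ) × ℕ) × ℕ) × ℕ => z.1.1.2 :=
    Primrec.snd.comp (Primrec.fst.comp Primrec.fst)
  have v : Primrec fun z : (((Qd × ℕ) × ℕ) × ℕ) × ℕ => z.1.2 :=
    Primrec.snd.comp Primrec.fst
  have w : Primrec fun z : (((Qd × ℕ) × ℕ) × ℕ) × ℕ => z.2 := Primrec.snd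
  exact Primrec.eq.comp
    (pr_mul (Primrec.snd.comp (Primrec.snd.comp (Primrec.snd.comp q))) x)
    (pr_add (pr_add (pr_mul (Primrec.fst.comp q) u)
      (pr_mul (Primrec.fst.comp (Primrec.snd.comp q)) v))
      (pr_mul (Primrec.fst.comp (Primrec.snd.comp (Primrec.snd.comp q))) w))

private def Cp (q : Qd) : Prop :=
  (0 < q.1 ∧ 0 < q.2.1 ∧ 0 < q.2.2.1 ∧ 0 < q.2.2.2) ∧
  (q.1 ≠ q.2.1 ∧ q.2.1 ≠ q.2.2.1 ∧ q.1 ≠ q.2.2.1) ∧
  (q.1 < 2 * q.2.1 ∧ q.1 < 2 * q.2.2.1 ∧ q.2.1 < 2 * q.1 ∧ q.2.1 < 2 * q.2.2.1 ∧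
    q.2.2.1 < 2 * q.1 ∧ q.2.2.1 < 2 * q.2.1) ∧
  ∀ d < q.1 + 1, q.1 % d = 0 → q.2.1 % d = 0 → q.2.2.1 % d = 0 → d < 2

private lemma pr_Cp : PrimrecPred Cp := by
  have a : Primrec fun q : Qd => q.1 := Primrec.fst
  have b : Primrec fun q : Qd => q.2.1 := Primrec.fst.comp Primrec.snd
  have c : Primrec fun q : Qd => q.2.2.1 := Primrec.fst.comp (Primrec.snd.comp Primrec.snd)
  have p : Primrec fun q : Qd => q.2.2.2 := Primrec.snd.comp (Primrec.snd.comp Primrec.snd)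
  have z : Primrec fun _ : Qd => 0 := Primrec.const 0
  have t : Primrec fun _ : Qd => 2 := Primrec.const 2
  have lt := fun {f g : Qd → ℕ} (hf : Primrec f) (hg : Primrec g) => Primrec.nat_lt.comp hf hg
  have ne := fun {f g : Qd → ℕ} (hf : Primrec f) (hg : Primrec g) => (Primrec.eq.comp hf hg).not
  have e : PrimrecPred fun q : Qd =>
      ∀ d < q.1 + 1, q.1 % d = 0 → q.2.1 % d = 0 → q.2.2.1 % d = 0 → d < 2 := by
    refine pr_ball (pr_add a (Primrec.const 1)) ?_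
    have d : Primrec fun z : Qd × ℕ => z.2 := Primrec.snd
    have m := fun {f : Qd → ℕ} (hf : Primrec f) =>
      Primrec.eq.comp (Primrec.nat_mod.comp (hf.comp (Primrec.fst (α := Qd) (β := ℕ))) d)
        (Primrec.const 0)
    exact pr_imp (m a) (pr_imp (m b) (pr_imp (m c) (Primrec.nat_lt.comp d (Primrec.const 2))))
  exact ((lt z a).and ((lt z b).and ((lt z c).and (lt z p)))).and
    (((ne a b).and ((ne b c).and (ne a c))).and
    (((lt a (pr_mul t b)).and ((lt a (pr_mul t c)).and ((lt b (pr_mul t a)).and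
      ((lt b (pr_mul t c)).and ((lt c (pr_mul t a)).and (lt c (pr_mul t b))))))).and e))

private def Sp (G : List ℕ) (q : Qd) : Prop :=
  Cp q ∧ ∀ x < 2 * nn G + 3, (x ∉ G ↔ Kp q x)

private lemma pr_Sp : PrimrecPred fun z : List ℕ × Qd => Sp z.1 z.2 := by
  unfold Sp
  refine (pr_Cp.comp Primrec.snd).and (pr_ball (pr_add (pr_mul (Primrec.const 2)
    (pr_nn.comp Primrec.fst)) (Primrec.const 3)) (pr_iff ?_ ?_))
  · exact (pr_mem Primrec.snd (Primrec.fst.comp Primrec.fst)).not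
  · exact pr_Kp.comp (Primrec.pair (Primrec.snd.comp Primrec.fst) Primrec.snd)

private def MM (G : List ℕ) : ℕ := (1000 * nn G) ^ 113 + 1

private lemma pr_MM : Primrec MM :=
  pr_add (pr_pow (pr_mul (Primrec.const 1000) pr_nn) 113) (Primrec.const 1)

private def Ep (G : List ℕ) : Prop :=
  ∃ A < MM G, ∃ B < MM G, ∃ C < MM G, ∃ p < MM G, Sp G (A, B, C, p)

private lemma pr_Ep : PrimrecPred Ep := by
  unfold Ep
  have b1 : Primrec fun z : List ℕ => MM z := pr_MM
  have b2 : Primrec fun z : List ℕ × ℕ => MM z.1 := b1.comp Primrec.fst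
  have b3 : Primrec fun z : (List ℕ × ℕ) × ℕ => MM z.1.1 := b2.comp Primrec.fst
  have b4 : Primrec fun z : ((List ℕ × ℕ) × ℕ) × ℕ => MM z.1.1.1 := b3.comp Primrec.fst
  refine pr_bex b1 (pr_bex b2 (pr_bex b3 (pr_bex b4 ?_)))
  have g : Primrec fun z : (((List ℕ × ℕ) × ℕ) × ℕ) × ℕ => z.1.1.1.1 :=
    Primrec.fst.comp (Primrec.fst.comp (Primrec.fst.comp Primrec.fst))
  have x : Primrec fun z : (((List ℕ × ℕ) × ℕ) × ℕ) × ℕ => z.1.1.1.2 :=
    Primrec.snd.comp (Primrec.fst.comp (Primrec.fst.comp Primrec.fst))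
  have u : Primrec fun z : (((List ℕ × ℕ) × ℕ) × ℕ) × ℕ => z.1.1.2 :=
    Primrec.snd.comp (Primrec.fst.comp Primrec.fst)
  have v : Primrec fun z : (((List ℕ × ℕ) × ℕ) × ℕ) × ℕ => z.1.2 :=
    Primrec.snd.comp Primrec.fst
  have w : Primrec fun z : (((List ℕ × ℕ) × ℕ) × ℕ) × ℕ => z.2 := Primrec.snd
  exact pr_Sp.comp (Primrec.pair g (Primrec.pair x (Primrec.pair u (Primrec.pair v w))))

private def Pp (G : List ℕ) : Prop :=
  (0 ∉ G ∧ ∀ x < nn G + 1, ∀ y < nn G + 1, x ∉ G → y ∉ G → x + y ∉ G) ∧ Ep G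

private lemma pr_Pp : PrimrecPred Pp := by
  unfold Pp
  refine (((pr_mem (Primrec.const 0) Primrec.id).not).and ?_).and pr_Ep
  have b1 : Primrec fun z : List ℕ => nn z + 1 := pr_add pr_nn (Primrec.const 1)
  have b2 : Primrec fun z : List ℕ × ℕ => nn z.1 + 1 := b1.comp Primrec.fst
  refine pr_ball b1 (pr_ball b2 ?_)
  have g : Primrec fun z : (List ℕ × ℕ) × ℕ => z.1.1 := Primrec.fst.comp Primrec.fst
  have x : Primrec fun z : (List ℕ × ℕ) × ℕ => z.1.2 := Primrec.snd.comp Primrec.fst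
  have y : Primrec fun z : (List ℕ × ℕ) × ℕ => z.2 := Primrec.snd
  exact pr_imp (pr_mem x g).not (pr_imp (pr_mem y g).not (pr_mem (pr_add x y) g).not)

private lemma Kp_iff {q : Qd} (h : 0 < q.1 ∧ 0 < q.2.1 ∧ 0 < q.2.2.1) (x : ℕ) :
    Kp q x ↔ q.2.2.2 * x ∈ gen q.1 q.2.1 q.2.2.1 := by
  constructor
  · rintro ⟨u, -, v, -, w, -, h1⟩
    exact ⟨u, v, w, h1⟩
  · rintro ⟨u, v, w, h1⟩
    have hu : u ≤ q.1 * u := Nat.le_mul_of_pos_left _ h.1
    have hv : v ≤ q.2.1 * v := Nat.le_mul_of_pos_left _ h.2.1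
    have hw : w ≤ q.2.2.1 * w := Nat.le_mul_of_pos_left _ h.2.2
    exact ⟨u, by omega, v, by omega, w, by omega, h1⟩

private lemma bezout_iff {A B C : ℕ} (hA : 0 < A) :
    (∀ d < A + 1, A % d = 0 → B % d = 0 → C % d = 0 → d < 2) ↔
      ∃ r s t : ℤ, r * A + s * B + t * C = 1 := by
  constructor
  · intro h
    have hg : Nat.gcd (Nat.gcd A B) C = 1 := by
      set d := Nat.gcd (Nat.gcd A B) C with hd
      have h1 : d ∣ A := (Nat.gcd_dvd_left _ _).trans (Nat.gcd_dvd_left _ _)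
      have h2 : d ∣ B := (Nat.gcd_dvd_left _ _).trans (Nat.gcd_dvd_right _ _)
      have h3 : d ∣ C := Nat.gcd_dvd_right _ _
      have h4 : d ≤ A := Nat.le_of_dvd hA h1
      have h5 := h d (by omega) (Nat.mod_eq_zero_of_dvd h1) (Nat.mod_eq_zero_of_dvd h2)
        (Nat.mod_eq_zero_of_dvd h3)
      have h6 : 0 < d := Nat.pos_of_dvd_of_pos h1 hA
      omega
    have e1 := Nat.gcd_eq_gcd_ab (Nat.gcd A B) C
    have e2 := Nat.gcd_eq_gcd_ab A B
    rw [hg, e2] at e1
    refine ⟨Nat.gcdA A B * Nat.gcdA (Nat.gcd A B) C, Nat.gcdB A B * Nat.gcdA (Nat.gcd A B) C,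
      Nat.gcdB (Nat.gcd A B) C, ?_⟩
    push_cast at e1
    linarith
  · rintro ⟨r, s, t, h⟩ d hd h1 h2 h3
    have g1 : (d : ℤ) ∣ A := by exact_mod_cast Nat.dvd_of_mod_eq_zero h1
    have g2 : (d : ℤ) ∣ B := by exact_mod_cast Nat.dvd_of_mod_eq_zero h2
    have g3 : (d : ℤ) ∣ C := by exact_mod_cast Nat.dvd_of_mod_eq_zero h3
    have g4 : (d : ℤ) ∣ 1 := by
      rw [← h]
      exact ((g1.mul_left r).add (g2.mul_left s)).add (g3.mul_left t)
    have g5 : (d : ℤ) ≤ 1 := Int.le_of_dvd one_pos g4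
    omega

theorem primrec : PrimrecPred (fun G : List ℕ =>
    ∃ S : Set ℕ, IsNS S ∧ (∀ x, x ∉ S ↔ x ∈ G) ∧ IsQE S) := by
  refine pr_Pp.of_eq fun G => ?_
  constructor
  · rintro ⟨⟨h0, hadd⟩, A, hA, B, hB, C, hC, p, hp, ⟨hpos, hne, hlt, hgcd⟩, hx⟩
    change 0 < A ∧ 0 < B ∧ 0 < C ∧ 0 < p at hpos
    have hNS : IsNS {x : ℕ | x ∉ G} := by
      refine ⟨h0, fun x hx y hy => ?_, ?_⟩
      · by_cases h1 : x < nn G + 1
        · by_cases h2 : y < nn G + 1
          · exact hadd x h1 y h2 hx hy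
          · intro h3
            have := le_nn h3
            omega
        · intro h3
          have := le_nn h3
          omega
      · refine (List.finite_toSet G).subset fun x hx => ?_
        simpa using hx
    refine ⟨{x : ℕ | x ∉ G}, hNS, fun x => by simp, ?_⟩
    refine isQE_of_data hpos hne hlt ((bezout_iff hpos.1).1 hgcd) ?_
    symm
    apply eq_of_agree (n := nn G)
    · rintro x ⟨u, v, w, h2⟩ y ⟨u', v', w', h3⟩
      refine ⟨u + u', v + v', w + w', ?_⟩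
      rw [mul_add, h2, h3]
      ring
    · intro x hxn h3
      have := le_nn h3
      omega
    · intro x hxn
      have h1 := hx x (by omega)
      have h2 := Kp_iff (q := (A, B, C, p)) ⟨hpos.1, hpos.2.1, hpos.2.2.1⟩ x
      exact (h1.trans h2).symm
  · rintro ⟨S, hS, hSG, hq⟩
    have hmem : ∀ x, x ∈ S ↔ x ∉ G := fun x => by
      rw [← hSG x, not_not]
    have hn : 1 ≤ nn G := by unfold nn; omega
    have hSn : ∀ x, nn G < x → x ∈ S := by
      intro x hx
      rw [hmem]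
      intro h
      have := le_nn h
      omega
    obtain ⟨A, B, C, p, ⟨hA, hB, hC, hp⟩, hpos, hne, hlt, hbz, hSe⟩ :=
      bounded hn hS hSn (isQ3_of_isQE hq)
    refine ⟨⟨(hmem 0).1 hS.1, fun x _ y _ hx hy => ?_⟩, A, ?_, B, ?_, C, ?_, p, ?_,
      ⟨hpos, hne, hlt, (bezout_iff hpos.1).2 hbz⟩, fun x _ => ?_⟩
    · exact (hmem _).1 (hS.2.1 x ((hmem x).2 hx) y ((hmem y).2 hy))
    · unfold MM; omega
    · unfold MM; omega
    · unfold MM; omega
    · unfold MM; omega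
    · have h2 := Kp_iff (q := (A, B, C, p)) ⟨hpos.1, hpos.2.1, hpos.2.2.1⟩ x
      rw [h2, ← hmem x, hSe]
      rfl

end Pool.Agent.QDec
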